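import Mathlib

/-! Meromorphic continuation of solutions of `q`-difference equations. -/

set_option autoImplicit false

open Metric Set Filter Topology

namespace Pool.Agent.KS6_12

/-- The germ of `φ` at the origin has a meromorphic continuation to the disc of radius `R`. -/
def Mer (R : ℝ) (φ : ℂ → ℂ) : Prop :=
  ∃ ψ : ℂ → ℂ, MeromorphicOn ψ (ball 0 R) ∧ ψ =ᶠ[𝓝[≠] 0] φ

namespace Mer

variable {R : ℝ} {φ φ' : ℂ → ℂ}

lemma congr (h : Mer R φ) (he : φ =ᶠ[𝓝[≠] 0] φ') : Mer R φ' := by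
  obtain ⟨ψ, h1, h2⟩ := h
  exact ⟨ψ, h1, h2.trans he⟩

lemma mono {R' : ℝ} (h : Mer R φ) (hR : R' ≤ R) : Mer R' φ := by
  obtain ⟨ψ, h1, h2⟩ := h
  exact ⟨ψ, h1.mono_set (ball_subset_ball hR), h2⟩

lemma add (h : Mer R φ) (h' : Mer R φ') : Mer R fun z => φ z + φ' z := by
  obtain ⟨ψ, h1, h2⟩ := h
  obtain ⟨ψ', h1', h2'⟩ := h'
  exact ⟨fun z => ψ z + ψ' z, h1.fun_add h1', h2.add h2'⟩

lemma mul (h : Mer R φ) (h' : Mer R φ') : Mer R fun z => φ z * φ' z := by
  obtain ⟨ψ, h1, h2⟩ := h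
  obtain ⟨ψ', h1', h2'⟩ := h'
  exact ⟨fun z => ψ z * ψ' z, h1.fun_mul h1', h2.mul h2'⟩

lemma neg (h : Mer R φ) : Mer R fun z => - φ z := by
  obtain ⟨ψ, h1, h2⟩ := h
  exact ⟨fun z => - ψ z, h1.fun_neg, h2.neg⟩

lemma inv (h : Mer R φ) : Mer R fun z => (φ z)⁻¹ := by
  obtain ⟨ψ, h1, h2⟩ := h
  exact ⟨fun z => (ψ z)⁻¹, h1.fun_inv, h2.inv⟩

lemma pow (h : Mer R φ) (n : ℕ) : Mer R fun z => φ z ^ n := by
  obtain ⟨ψ, h1, h2⟩ := h
  exact ⟨fun z => ψ z ^ n, h1.fun_pow n, h2.pow_const n⟩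

lemma of_differentiable {φ : ℂ → ℂ} (h : Differentiable ℂ φ) : Mer R φ :=
  ⟨φ, fun z _ => (h.analyticAt z).meromorphicAt, EventuallyEq.rfl⟩

lemma of_differentiableOn {φ : ℂ → ℂ} (h : DifferentiableOn ℂ φ (ball 0 R)) : Mer R φ :=
  ⟨φ, fun z hz => (h.analyticAt (isOpen_ball.mem_nhds hz)).meromorphicAt, EventuallyEq.rfl⟩

lemma sum {ι : Type} {s : Finset ι} {f : ι → ℂ → ℂ} (h : ∀ i ∈ s, Mer R (f i)) :
    Mer R fun z => ∑ i ∈ s, f i z := by
  classical
  induction s using Finset.induction_on with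
  | empty => simpa using of_differentiable (R := R) (differentiable_const (0 : ℂ))
  | insert a s ha ih =>
    simp only [Finset.sum_insert ha]
    exact (h a (Finset.mem_insert_self a s)).add (ih fun i hi => h i (Finset.mem_insert_of_mem hi))

lemma prod {ι : Type} {s : Finset ι} {f : ι → ℂ → ℂ} (h : ∀ i ∈ s, Mer R (f i)) :
    Mer R fun z => ∏ i ∈ s, f i z := by
  classical
  induction s using Finset.induction_on with
  | empty => simpa using of_differentiable (R := R) (differentiable_const (1 : ℂ))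
  | insert a s ha ih =>
    simp only [Finset.prod_insert ha]
    exact (h a (Finset.mem_insert_self a s)).mul (ih fun i hi => h i (Finset.mem_insert_of_mem hi))

lemma zero_or (h : Mer R φ) (hR : 0 < R) :
    (∀ᶠ z in 𝓝[≠] (0 : ℂ), φ z = 0) ∨ ∀ᶠ z in 𝓝[≠] (0 : ℂ), φ z ≠ 0 := by
  obtain ⟨ψ, h1, h2⟩ := h
  rcases (h1 0 (mem_ball_self hR)).eventually_eq_zero_or_eventually_ne_zero with h3 | h3
  · left
    filter_upwards [h2, h3] with z h4 h5
    rw [← h4, h5]
  · right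
    filter_upwards [h2, h3] with z h4 h5
    rw [← h4]
    exact h5

end Mer

lemma tendsto_mul_ne {c : ℂ} (hc : c ≠ 0) :
    Tendsto (fun z : ℂ => c * z) (𝓝[≠] 0) (𝓝[≠] 0) := by
  rw [tendsto_nhdsWithin_iff]
  constructor
  · have : Tendsto (fun z : ℂ => c * z) (𝓝 0) (𝓝 (c * 0)) := by
      apply Continuous.tendsto
      fun_prop
    rw [mul_zero] at this
    exact this.mono_left nhdsWithin_le_nhds
  · filter_upwards [self_mem_nhdsWithin] with z hz
    exact mul_ne_zero hc hz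

lemma Mer.scale {R : ℝ} {φ : ℂ → ℂ} (h : Mer R φ) {Q : ℂ} (hQ0 : Q ≠ 0) (hQ1 : ‖Q‖ < 1) (i : ℕ) :
    Mer (R / ‖Q‖) fun z => φ (Q ^ (i + 1) * z) := by
  obtain ⟨ψ, h1, h2⟩ := h
  have hQpos : 0 < ‖Q‖ := norm_pos_iff.2 hQ0
  refine ⟨fun z => ψ (Q ^ (i + 1) * z), fun z hz => ?_, ?_⟩
  · refine MeromorphicAt.comp_analyticAt (f := ψ) (g := fun z => Q ^ (i + 1) * z) (h1 _ ?_)
      (by fun_prop)
    rw [mem_ball_zero_iff, lt_div_iff₀ hQpos] at hz
    rw [mem_ball_zero_iff, norm_mul, norm_pow, pow_succ]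
    calc ‖Q‖ ^ i * ‖Q‖ * ‖z‖ ≤ 1 * ‖Q‖ * ‖z‖ := by
          refine mul_le_mul_of_nonneg_right (mul_le_mul_of_nonneg_right ?_ hQpos.le) (norm_nonneg _)
          exact pow_le_one₀ hQpos.le hQ1.le
      _ = ‖z‖ * ‖Q‖ := by ring
      _ < R := hz
  · exact (tendsto_mul_ne (pow_ne_zero (i + 1) hQ0)).eventually h2

lemma ne_of_entire {a : ℂ → ℂ} (ha : Differentiable ℂ a) (h : a ≠ 0) :
    ∀ᶠ z in 𝓝[≠] (0 : ℂ), a z ≠ 0 := by
  rcases (ha.analyticAt 0).eventually_eq_zero_or_eventually_ne_zero with h1 | h1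
  · exfalso
    apply h
    funext z
    have han : AnalyticOnNhd ℂ a univ := fun z _ => ha.analyticAt z
    exact han.eqOn_zero_of_preconnected_of_eventuallyEq_zero isPreconnected_univ (mem_univ 0) h1
      (mem_univ z)
  · exact h1

/-- **continuation by a linear equation** -/
theorem step_linear {Q : ℂ} (hQ0 : Q ≠ 0) (hQ1 : ‖Q‖ < 1) {φ : ℂ → ℂ} {R : ℝ}
    (hφ : Mer R φ) : ∀ (k : ℕ) (a : Fin k → ℂ → ℂ), (∀ i, Differentiable ℂ (a i)) → (∃ i, a i ≠ 0) →
      (∀ᶠ z in 𝓝[≠] (0 : ℂ), ∑ i, a i z * φ (Q ^ (i : ℕ) * z) = 0) → Mer (R / ‖Q‖) φ := by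
  intro k
  induction k with
  | zero => rintro a - ⟨i, -⟩; exact i.elim0
  | succ k ih =>
    intro a ha hne h
    have h' : ∀ᶠ z in 𝓝[≠] (0 : ℂ), a 0 z * φ z +
        ∑ i : Fin k, a i.succ z * φ (Q ^ ((i : ℕ) + 1) * z) = 0 := by
      filter_upwards [h] with z hz
      rw [Fin.sum_univ_succ] at hz
      simpa using hz
    by_cases h0 : a 0 = 0
    · refine ih (fun i z => a i.succ (Q⁻¹ * z)) (fun i => (ha i.succ).comp (by fun_prop)) ?_ ?_
      · obtain ⟨i, hi⟩ := hne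
        have hi0 : i ≠ 0 := by rintro rfl; exact hi h0
        obtain ⟨j, rfl⟩ := Fin.exists_succ_eq.2 hi0
        refine ⟨j, fun hj => hi ?_⟩
        funext z
        have := congrFun hj (Q * z)
        simpa [inv_mul_cancel_left₀ hQ0] using this
      · have h1 := (tendsto_mul_ne (inv_ne_zero hQ0)).eventually h'
        filter_upwards [h1] with z hz
        rw [h0] at hz
        simp only [Pi.zero_apply, zero_mul, zero_add] at hz
        rw [← hz]
        refine Finset.sum_congr rfl fun i _ => ?_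
        have : Q ^ ((i : ℕ) + 1) * (Q⁻¹ * z) = Q ^ (i : ℕ) * z := by
          rw [pow_succ]
          field_simp
        rw [this]
    · have h1 : Mer (R / ‖Q‖) fun z =>
          -(∑ i : Fin k, a i.succ z * φ (Q ^ ((i : ℕ) + 1) * z)) * (a 0 z)⁻¹ :=
        (Mer.sum (s := Finset.univ)
          (f := fun (i : Fin k) z => a i.succ z * φ (Q ^ ((i : ℕ) + 1) * z)) fun i _ =>
            (Mer.of_differentiable (ha i.succ)).mul (hφ.scale hQ0 hQ1 i)).neg.mul
              (Mer.of_differentiable (ha 0)).inv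
      refine h1.congr ?_
      filter_upwards [h', ne_of_entire (ha 0) h0] with z hz hz0
      field_simp
      linear_combination -hz

/-- **continuation by a multilinear equation** -/
theorem step_multi {Q : ℂ} (hQ0 : Q ≠ 0) (hQ1 : ‖Q‖ < 1) {φ : ℂ → ℂ} {R : ℝ} (hR : 0 < R)
    (hφ : Mer R φ) : ∀ (s : ℕ) (a : (Fin s → Fin 2) → ℂ → ℂ), (∀ e, Differentiable ℂ (a e)) →
      (∃ e, a e ≠ 0) →
      (∀ᶠ z in 𝓝[≠] (0 : ℂ), ∑ e, a e z * ∏ i : Fin s, φ (Q ^ (i : ℕ) * z) ^ (e i : ℕ) = 0) →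
      Mer (R / ‖Q‖) φ := by
  intro s
  have hQpos : 0 < ‖Q‖ := norm_pos_iff.2 hQ0
  induction s with
  | zero =>
    rintro a ha ⟨e, he⟩ h
    exfalso
    have h1 : ∀ᶠ z in 𝓝[≠] (0 : ℂ), a e z = 0 := by
      filter_upwards [h] with z hz
      rw [Fintype.sum_unique, Finset.univ_eq_empty, Finset.prod_empty, mul_one] at hz
      rw [Subsingleton.elim e _]
      exact hz
    obtain ⟨z, h2, h3⟩ := (h1.and (ne_of_entire (ha e) he)).exists
    exact h3 h2
  | succ s ih =>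
    intro a ha hne h
    set M : Fin 2 → ℂ → ℂ := fun b z => ∑ e : Fin s → Fin 2, a (Fin.cons b e) z *
      ∏ i : Fin s, φ (Q ^ ((i : ℕ) + 1) * z) ^ (e i : ℕ) with hM
    have h' : ∀ᶠ z in 𝓝[≠] (0 : ℂ), M 0 z + M 1 z * φ z = 0 := by
      filter_upwards [h] with z hz
      rw [← (Fin.consEquiv fun _ => Fin 2).sum_comp, Fintype.sum_prod_type, Fin.sum_univ_two] at hz
      rw [← hz]
      have hc : ∀ (b : Fin 2) (e : Fin s → Fin 2), (Fin.consEquiv fun _ => Fin 2) (b, e) =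
          Fin.cons b e := fun _ _ => rfl
      simp only [hM, hc, Fin.prod_univ_succ, Fin.cons_zero, Fin.cons_succ,
        Fin.val_zero, pow_zero, one_mul, Fin.val_succ, Fin.val_one, pow_one, Finset.sum_mul]
      congr 1
      refine Finset.sum_congr rfl fun e _ => ?_
      ring
    have hMm : ∀ b, Mer (R / ‖Q‖) (M b) := fun b =>
      Mer.sum fun e _ => (Mer.of_differentiable (ha _)).mul
        (Mer.prod fun i _ => (hφ.scale hQ0 hQ1 i).pow _)
    rcases (hMm 1).zero_or (by positivity) with h1 | h1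
    · have h0 : ∀ᶠ z in 𝓝[≠] (0 : ℂ), M 0 z = 0 := by
        filter_upwards [h', h1] with z h2 h3
        rw [h3, zero_mul, add_zero] at h2
        exact h2
      obtain ⟨e, he⟩ := hne
      have hMe : ∀ᶠ z in 𝓝[≠] (0 : ℂ), M (e 0) z = 0 := by
        have : e 0 = 0 ∨ e 0 = 1 := by
          rcases e 0 with ⟨_ | _ | _, h⟩
          · left; rfl
          · right; rfl
          · omega
        rcases this with h2 | h2
        · rw [h2]; exact h0
        · rw [h2]; exact h1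
      refine ih (fun e' z => a (Fin.cons (e 0) e') (Q⁻¹ * z)) (fun e' => (ha _).comp (by fun_prop))
        ⟨Fin.tail e, fun hj => he ?_⟩ ?_
      · funext z
        have := congrFun hj (Q * z)
        simpa [inv_mul_cancel_left₀ hQ0, Fin.cons_self_tail] using this
      · have h2 := (tendsto_mul_ne (inv_ne_zero hQ0)).eventually hMe
        filter_upwards [h2] with z hz
        rw [← hz]
        refine Finset.sum_congr rfl fun e' _ => ?_
        congr 1
        refine Finset.prod_congr rfl fun i _ => ?_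
        have : Q ^ ((i : ℕ) + 1) * (Q⁻¹ * z) = Q ^ (i : ℕ) * z := by
          rw [pow_succ]
          field_simp
        rw [this]
    · refine ((hMm 0).neg.mul (hMm 1).inv).congr ?_
      filter_upwards [h', h1] with z h2 h3
      field_simp
      linear_combination -h2

/-- iteration of the continuation -/
theorem mer_all {Q : ℂ} (hQ0 : Q ≠ 0) (hQ1 : ‖Q‖ < 1) {φ : ℂ → ℂ} {r₀ : ℝ} (hr₀ : 0 < r₀)
    (h0 : Mer r₀ φ) (h : ∀ R, 0 < R → Mer R φ → Mer (R / ‖Q‖) φ) (R : ℝ) : Mer R φ := by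
  have hQpos : 0 < ‖Q‖ := norm_pos_iff.2 hQ0
  have h1 : ∀ m : ℕ, Mer (r₀ / ‖Q‖ ^ m) φ := by
    intro m
    induction m with
    | zero => simpa using h0
    | succ m ih =>
      have := h _ (by positivity) ih
      rwa [div_div, ← pow_succ] at this
  rcases le_or_gt R 0 with hR | hR
  · exact h0.mono (hR.trans hr₀.le)
  obtain ⟨m, hm⟩ := exists_pow_lt_of_lt_one (show 0 < r₀ / R by positivity) hQ1
  refine (h1 m).mono ?_
  rw [le_div_iff₀ (by positivity)]
  rw [lt_div_iff₀ hR] at hm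
  linarith

/-- the identity principle for meromorphic functions on a disc -/
lemma mer_ident {R : ℝ} {ψ ψ' : ℂ → ℂ} (h : MeromorphicOn ψ (ball 0 R))
    (h' : MeromorphicOn ψ' (ball 0 R)) (he : ψ =ᶠ[𝓝[≠] 0] ψ') {w : ℂ} (hw : w ∈ ball (0 : ℂ) R) :
    ψ =ᶠ[𝓝[≠] w] ψ' := by
  have hR : 0 < R := lt_of_le_of_lt (norm_nonneg _) (mem_ball_zero_iff.1 hw)
  by_contra hne
  have h1 := h.fun_sub h'
  have h2 : meromorphicOrderAt (fun z => ψ z - ψ' z) w ≠ ⊤ := by
    intro htop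
    rw [meromorphicOrderAt_eq_top_iff] at htop
    apply hne
    filter_upwards [htop] with z hz
    exact sub_eq_zero.1 hz
  have h3 := h1.meromorphicOrderAt_ne_top_of_isPreconnected (convex_ball (0 : ℂ) R).isPreconnected
    hw (mem_ball_self hR) h2
  apply h3
  rw [meromorphicOrderAt_eq_top_iff]
  filter_upwards [he] with z hz
  exact sub_eq_zero.2 hz

/-- gluing the continuations -/
theorem mer_glue {φ : ℂ → ℂ} (h : ∀ R, Mer R φ) :
    ∃ ψ : ℂ → ℂ, (∀ z, MeromorphicAt ψ z) ∧ ψ =ᶠ[𝓝[≠] 0] φ := by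
  choose f hf hfe using fun m : ℕ => h m
  have hcomp : ∀ (m m' : ℕ) (w : ℂ), ‖w‖ < m → ‖w‖ < m' → f m =ᶠ[𝓝[≠] w] f m' := by
    intro m m' w h1 h2
    refine mer_ident (R := min m m') ((hf m).mono_set (ball_subset_ball (min_le_left _ _)))
      ((hf m').mono_set (ball_subset_ball (min_le_right _ _))) ((hfe m).trans (hfe m').symm) ?_
    rw [mem_ball_zero_iff]
    exact lt_min h1 h2
  have key : ∀ w : ℂ, (fun z => f (⌈‖z‖⌉₊ + 2) z) =ᶠ[𝓝[≠] w] f (⌈‖w‖⌉₊ + 1) := by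
    intro w
    set a : ℕ := ⌈‖w‖⌉₊ with ha
    have h1 : ∀ᶠ z in 𝓝[≠] w, ∀ m ∈ Finset.Icc (a + 1) (a + 3), f m z = f (a + 1) z := by
      rw [Finset.eventually_all]
      intro m hm
      obtain ⟨hm1, hm2⟩ := Finset.mem_Icc.1 hm
      have h2 := Nat.le_ceil ‖w‖
      refine hcomp m (a + 1) w ?_ ?_
      · have : (a : ℝ) + 1 ≤ m := by exact_mod_cast hm1
        linarith
      · push_cast
        linarith
    have h3 : ∀ᶠ z in 𝓝[≠] w, z ∈ ball w 1 :=
      nhdsWithin_le_nhds (isOpen_ball.mem_nhds (mem_ball_self one_pos))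
    filter_upwards [h1, h3] with z hz hz1
    apply hz
    rw [mem_ball_iff_norm] at hz1
    have h4 : ‖z‖ ≤ ‖w‖ + 1 := by
      have : z = w + (z - w) := by ring
      rw [this]
      exact (norm_add_le _ _).trans (by linarith)
    have h5 : ‖w‖ ≤ ‖z‖ + 1 := by
      have : w = z - (z - w) := by ring
      conv_lhs => rw [this]
      exact (norm_sub_le _ _).trans (by linarith)
    have h6 : ⌈‖z‖⌉₊ ≤ a + 1 := by
      refine Nat.ceil_le.2 ?_
      push_cast
      linarith [Nat.le_ceil ‖w‖]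
    have h7 : a ≤ ⌈‖z‖⌉₊ + 1 := by
      refine Nat.ceil_le.2 ?_
      push_cast
      linarith [Nat.le_ceil ‖z‖]
    rw [Finset.mem_Icc]
    omega
  refine ⟨fun z => f (⌈‖z‖⌉₊ + 2) z, fun w => ?_, (key 0).trans (hfe _)⟩
  refine MeromorphicAt.congr (hf (⌈‖w‖⌉₊ + 1) w ?_) (key w).symm
  rw [mem_ball_zero_iff]
  push_cast
  linarith [Nat.le_ceil ‖w‖]

end Pool.Agent.KS6_12
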