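import Pool.Agent.KS6_12.Hyp.Trans
import Pool.Agent.KS6_12.QProg.MerCont

/-! Entire curves from meromorphic coordinates. -/

set_option autoImplicit false

open Metric Set Filter Topology

namespace Pool.Agent.KS6_12

variable {n : ℕ}

lemma mk_eq_of_par {u v : Fin (n + 1) → ℂ} (hu : u ≠ 0) (hv : v ≠ 0)
    (h : ∀ a b, u a * v b = u b * v a) :
    Projectivization.mk ℂ u hu = Projectivization.mk ℂ v hv := by
  obtain ⟨k, hk⟩ := Function.ne_iff.1 hv
  have hk' : v k ≠ 0 := hk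
  rw [Projectivization.mk_eq_mk_iff']
  refine ⟨u k / v k, ?_⟩
  funext j
  rw [Pi.smul_apply, smul_eq_mul]
  have := h j k
  field_simp
  linear_combination -this

/-- a vector of meromorphic functions is a meromorphic vector-valued function -/
lemma meromorphicAt_vec {H : ℂ → Fin (n + 1) → ℂ} {w : ℂ}
    (h : ∀ l, MeromorphicAt (fun z => H z l) w) : MeromorphicAt H w := by
  choose N hN using h
  refine ⟨∑ l, N l, ?_⟩
  rw [analyticAt_pi_iff]
  intro l
  obtain ⟨m, hm⟩ : ∃ m, ∑ l, N l = m + N l :=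
    ⟨∑ l, N l - N l, (Nat.sub_add_cancel (Finset.single_le_sum (fun _ _ => Nat.zero_le _)
      (Finset.mem_univ l))).symm⟩
  have h1 : AnalyticAt ℂ (fun z => (z - w) ^ m * ((z - w) ^ (N l) • H z l)) w :=
    AnalyticAt.mul (by fun_prop) (hN l)
  refine h1.congr (Eventually.of_forall fun z => ?_)
  simp only [Pi.smul_apply, smul_eq_mul, hm, pow_add]
  ring

/-- A meromorphic vector gives a holomorphic map to projective space. -/
theorem mer_to_hol {H : ℂ → Fin (n + 1) → ℂ} (hH : ∀ l z, MeromorphicAt (fun z => H z l) z)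
    (h0 : ∀ᶠ z in 𝓝[≠] (0 : ℂ), H z ≠ 0) :
    ∃ F : ℂ → PP ℂ n, IsHol univ F ∧
      ∀ w, ∀ᶠ z in 𝓝[≠] w, ∃ h : H z ≠ 0, F z = Projectivization.mk ℂ (H z) h := by
  have hm : ∀ w, MeromorphicAt H w := fun w => meromorphicAt_vec fun l => hH l w
  have hord : ∀ w, meromorphicOrderAt H w ≠ ⊤ := by
    intro w
    have h1 : MeromorphicOn H univ := fun z _ => hm z
    exact h1.meromorphicOrderAt_ne_top_of_isPreconnected isPreconnected_univ (mem_univ 0)
      (mem_univ w) ((meromorphicOrderAt_ne_top_iff_eventually_ne_zero (hm 0)).2 h0)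
  have h2 := fun w => (meromorphicOrderAt_ne_top_iff (hm w)).1 (hord w)
  choose g hg hg0 hgH using h2
  -- good neighbourhoods
  have hV : ∀ w₀, ∃ V : Set ℂ, IsOpen V ∧ w₀ ∈ V ∧ DifferentiableOn ℂ (g w₀) V ∧
      (∀ z ∈ V, g w₀ z ≠ 0) ∧ ∀ z ∈ V, z ≠ w₀ →
        H z = (z - w₀) ^ (meromorphicOrderAt H w₀).untop₀ • g w₀ z := by
    intro w₀
    have e1 : ∀ᶠ z in 𝓝 w₀, AnalyticAt ℂ (g w₀) z := (hg w₀).eventually_analyticAt
    have e2 : ∀ᶠ z in 𝓝 w₀, g w₀ z ≠ 0 := (hg w₀).continuousAt.eventually_ne (hg0 w₀)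
    have e3 := eventually_nhdsWithin_iff.1 (hgH w₀)
    obtain ⟨V, hV, hVo, hwV⟩ := _root_.eventually_nhds_iff.1 ((e1.and e2).and e3)
    exact ⟨V, hVo, hwV, fun z hz => (hV z hz).1.1.differentiableAt.differentiableWithinAt,
      fun z hz => (hV z hz).1.2, fun z hz hne => (hV z hz).2 hne⟩
  choose V hVo hwV hVd hVne hVH using hV
  have key : ∀ w₀, ∀ w ∈ V w₀, ∃ h : g w₀ w ≠ 0,
      Projectivization.mk ℂ (g w w) (hg0 w) = Projectivization.mk ℂ (g w₀ w) h := by
    intro w₀ w hw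
    refine ⟨hVne w₀ w hw, ?_⟩
    by_cases hww : w = w₀
    · subst hww
      rfl
    apply mk_eq_of_par
    intro a b
    have hcw : ContinuousAt (g w) w := (hg w).continuousAt
    have hcw₀ : ContinuousAt (g w₀) w :=
      ((hVd w₀).differentiableAt ((hVo w₀).mem_nhds hw)).continuousAt
    set D : ℂ → ℂ := fun z => g w z a * g w₀ z b - g w z b * g w₀ z a with hD
    have hDc : ContinuousAt D w := by
      have c1 : ∀ l, ContinuousAt (fun z => g w z l) w := fun l =>
        (continuous_apply l).continuousAt.comp hcw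
      have c2 : ∀ l, ContinuousAt (fun z => g w₀ z l) w := fun l =>
        (continuous_apply l).continuousAt.comp hcw₀
      exact ((c1 a).mul (c2 b)).sub ((c1 b).mul (c2 a))
    have hD0 : ∀ᶠ z in 𝓝[≠] w, D z = 0 := by
      have e1 : ∀ᶠ z in 𝓝[≠] w, z ∈ V w ∧ z ∈ V w₀ :=
        nhdsWithin_le_nhds (inter_mem ((hVo w).mem_nhds (hwV w)) ((hVo w₀).mem_nhds hw))
      have e2 : ∀ᶠ z in 𝓝[≠] w, z ≠ w₀ :=
        nhdsWithin_le_nhds (isOpen_ne.mem_nhds hww)
      filter_upwards [e1, e2, self_mem_nhdsWithin] with z hz1 hz2 hz3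
      have h3 := hVH w z hz1.1 hz3
      have h4 := hVH w₀ z hz1.2 hz2
      have h5 : (z - w) ^ (meromorphicOrderAt H w).untop₀ ≠ 0 :=
        zpow_ne_zero _ (sub_ne_zero.2 hz3)
      have h6 : (z - w₀) ^ (meromorphicOrderAt H w₀).untop₀ ≠ 0 :=
        zpow_ne_zero _ (sub_ne_zero.2 hz2)
      have h7 : ∀ l, (z - w) ^ (meromorphicOrderAt H w).untop₀ * g w z l =
          (z - w₀) ^ (meromorphicOrderAt H w₀).untop₀ * g w₀ z l := by
        intro l
        have := congrFun (h3.symm.trans h4) l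
        simpa using this
      have h8 : ((z - w) ^ (meromorphicOrderAt H w).untop₀ *
          (z - w₀) ^ (meromorphicOrderAt H w₀).untop₀) * D z = 0 := by
        rw [hD]
        linear_combination (z - w₀) ^ (meromorphicOrderAt H w₀).untop₀ * g w₀ z b * h7 a -
          (z - w₀) ^ (meromorphicOrderAt H w₀).untop₀ * g w₀ z a * h7 b
      exact (mul_eq_zero.1 h8).resolve_left (mul_ne_zero h5 h6)
    have h9 : D w = 0 := by
      have t1 : Tendsto D (𝓝[≠] w) (𝓝 (D w)) := hDc.tendsto.mono_left nhdsWithin_le_nhds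
      have t2 : Tendsto D (𝓝[≠] w) (𝓝 0) :=
        (tendsto_const_nhds (x := (0 : ℂ))).congr' (by
          filter_upwards [hD0] with z hz
          exact hz.symm)
      exact tendsto_nhds_unique t1 t2
    exact sub_eq_zero.1 h9
  refine ⟨fun w => Projectivization.mk ℂ (g w w) (hg0 w), fun w₀ _ =>
    ⟨V w₀, g w₀, hVo w₀, hwV w₀, hVd w₀, key w₀⟩, fun w => ?_⟩
  have e1 : ∀ᶠ z in 𝓝[≠] w, z ∈ V w := nhdsWithin_le_nhds ((hVo w).mem_nhds (hwV w))
  filter_upwards [e1, self_mem_nhdsWithin] with z hz1 hz2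
  have h3 := hVH w z hz1 hz2
  have h5 : (z - w) ^ (meromorphicOrderAt H w).untop₀ ≠ 0 := zpow_ne_zero _ (sub_ne_zero.2 hz2)
  have hne : H z ≠ 0 := by
    rw [h3]
    exact smul_ne_zero h5 (hVne w z hz1)
  obtain ⟨h, h4⟩ := key w z hz1
  refine ⟨hne, h4.trans ?_⟩
  rw [Projectivization.mk_eq_mk_iff']
  refine ⟨((z - w) ^ (meromorphicOrderAt H w).untop₀)⁻¹, ?_⟩
  rw [h3, smul_smul, inv_mul_cancel₀ h5, one_smul]

/-- the zero set is closed -/
lemma IsHol.zer_of_frequently {F : ℂ → PP ℂ n} (hF : IsHol univ F) {ι : Type}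
    {P : ι → MvPolynomial (Fin (n + 1)) ℂ} {e : ι → ℕ} (hP : ∀ i, (P i).IsHomogeneous (e i)) {w : ℂ}
    (h : ∀ i, ∃ᶠ z in 𝓝[≠] w, MvPolynomial.eval (F z).rep (P i) = 0) : F w ∈ Zer P := by
  obtain ⟨V, g, hV, hwV, hg, hFg⟩ := hF w (mem_univ w)
  intro i
  obtain ⟨hne, hw⟩ := hFg w hwV
  rw [hw, eval_rep (hP i)]
  have hc : ContinuousAt (fun z => MvPolynomial.eval (g z) (P i)) w :=
    (MvPolynomial.continuous_eval (P i)).continuousAt.comp
      (hg.differentiableAt (hV.mem_nhds hwV)).continuousAt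
  by_contra hcon
  have e1 : ∀ᶠ z in 𝓝[≠] w, MvPolynomial.eval (g z) (P i) ≠ 0 :=
    nhdsWithin_le_nhds (hc.eventually_ne hcon)
  have e2 : ∀ᶠ z in 𝓝[≠] w, z ∈ V := nhdsWithin_le_nhds (hV.mem_nhds hwV)
  obtain ⟨z, hz, hz1, hz2⟩ := ((h i).and_eventually (e1.and e2)).exists
  obtain ⟨hne', hz'⟩ := hFg z hz2
  rw [hz', eval_rep (hP i)] at hz
  exact hz1 hz

/-- **Entire curves** from a germ all of whose coordinates extend meromorphically. -/
theorem entire_curve {G : ℂ → Fin (n + 1) → ℂ} (hG : ∀ l R, Mer R fun z => G z l) {ι : Type}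
    {P : ι → MvPolynomial (Fin (n + 1)) ℂ} {e : ι → ℕ} (hP : ∀ i, (P i).IsHomogeneous (e i))
    (h0 : ∀ᶠ z in 𝓝[≠] (0 : ℂ), G z ≠ 0 ∧ ∀ i, MvPolynomial.eval (G z) (P i) = 0) :
    ∃ F : ℂ → PP ℂ n, IsHol univ F ∧ (∀ z, F z ∈ Zer P) ∧
      ∀ᶠ z in 𝓝[≠] (0 : ℂ), ∃ h : G z ≠ 0, F z = Projectivization.mk ℂ (G z) h := by
  choose ψ hψ hψe using fun l => mer_glue (hG l)
  set H : ℂ → Fin (n + 1) → ℂ := fun z l => ψ l z with hH
  have hHG : ∀ᶠ z in 𝓝[≠] (0 : ℂ), H z = G z := by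
    have : ∀ᶠ z in 𝓝[≠] (0 : ℂ), ∀ l, ψ l z = G z l := eventually_all.2 hψe
    filter_upwards [this] with z hz
    funext l
    exact hz l
  obtain ⟨F, hF, hFH⟩ := mer_to_hol (H := H) (fun l z => hψ l z) (by
    filter_upwards [hHG, h0] with z h1 h2
    rw [h1]
    exact h2.1)
  refine ⟨F, hF, fun w => ?_, ?_⟩
  · refine hF.zer_of_frequently hP fun i => Eventually.frequently ?_
    have hp : ∀ᶠ z in 𝓝[≠] w, MvPolynomial.eval (H z) (P i) = 0 := by
      have hmer : ∀ z, MeromorphicAt (fun z => MvPolynomial.eval (H z) (P i)) z := by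
        intro z
        generalize P i = p
        induction p using MvPolynomial.induction_on with
        | C a => simp only [MvPolynomial.eval_C]; exact MeromorphicAt.const a z
        | add p q hp hq => simp only [map_add]; exact hp.fun_add hq
        | mul_X p l hp => simp only [map_mul, MvPolynomial.eval_X]; exact hp.fun_mul (hψ l z)
      have h1 : MeromorphicOn (fun z => MvPolynomial.eval (H z) (P i)) univ := fun z _ => hmer z
      have h2 : meromorphicOrderAt (fun z => MvPolynomial.eval (H z) (P i)) w = ⊤ := by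
        by_contra hne
        have h3 := h1.meromorphicOrderAt_ne_top_of_isPreconnected isPreconnected_univ (mem_univ w)
          (mem_univ 0) hne
        apply h3
        rw [meromorphicOrderAt_eq_top_iff]
        filter_upwards [hHG, h0] with z h4 h5
        rw [h4]
        exact h5.2 i
      rwa [meromorphicOrderAt_eq_top_iff] at h2
    filter_upwards [hp, hFH w] with z h1 h2
    obtain ⟨hne, h3⟩ := h2
    rw [h3, eval_rep (hP i)]
    exact h1
  · filter_upwards [hHG, hFH 0] with z h1 h2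
    obtain ⟨hne, h3⟩ := h2
    simp only [h1] at h3 hne
    exact ⟨hne, h3⟩

end Pool.Agent.KS6_12
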