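import Pool.Agent.KS6_12.QProg.Steps
import Pool.Agent.KS6_12.QProg.Curve
import Pool.Agent.KS6_12.Hyp.Phase2
import Pool.Agent.KS6_12.Hyp.Kwack
import Pool.Agent.KS6_12.Hyp.Ident

/-! Maps of a punctured disc to a hyperbolic variety with rational values of small height along a
geometric progression. -/

set_option autoImplicit false

open NumberField Height Metric Set Filter Topology
open Pool.Agent.NH29.GK (Phi Mat PM HolP Phi_inj Phi_diag_ne Phi_smul)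

namespace Pool.Agent.KS6_12

/-- the punctured disc -/
def PDisc (r : ℝ) : Set ℂ := {z | 0 < ‖z‖ ∧ ‖z‖ < r}

lemma isPreconnected_pdisc (r : ℝ) : IsPreconnected (PDisc r) := by
  have h1 : PDisc r =
      (fun q : ℝ × ℝ => (q.1 : ℂ) * Complex.exp (q.2 * Complex.I)) '' (Ioo 0 r ×ˢ univ) := by
    ext z
    constructor
    · intro hz
      refine ⟨(‖z‖, z.arg), ⟨hz, mem_univ _⟩, ?_⟩
      exact Complex.norm_mul_exp_arg_mul_I z
    · rintro ⟨q, ⟨hq, -⟩, rfl⟩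
      have hq' : 0 < q.1 ∧ q.1 < r := hq
      change 0 < ‖_‖ ∧ ‖_‖ < r
      rw [norm_mul, Complex.norm_exp_ofReal_mul_I, mul_one, Complex.norm_real,
        Real.norm_of_nonneg hq'.1.le]
      exact hq'
  rw [h1]
  refine (isPreconnected_Ioo.prod isPreconnected_univ).image _ ?_
  apply Continuous.continuousOn
  fun_prop

lemma IsHol.comp_inv {n : ℕ} {r : ℝ} (hr : 0 < r) {f : ℂ → PP ℂ n} (hf : IsHol (PDisc r) f) :
    IsHol {z | 1 / r < ‖z‖} (fun z => f (1 / z)) := by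
  intro z hz
  have hz' : 1 / r < ‖z‖ := hz
  have hzpos : 0 < ‖z‖ := lt_trans (by positivity) hz'
  have hz0 : z ≠ 0 := norm_pos_iff.1 hzpos
  have hmem : 1 / z ∈ PDisc r := by
    refine ⟨by rw [norm_div, norm_one]; positivity, ?_⟩
    rw [norm_div, norm_one, div_lt_iff₀ hzpos]
    rw [div_lt_iff₀ hr] at hz'
    linarith
  obtain ⟨V, g, hV, hzV, hg, hfg⟩ := hf _ hmem
  have hc : ContinuousOn (fun w : ℂ => 1 / w) {w | w ≠ 0} := by
    refine ContinuousOn.div continuousOn_const continuousOn_id fun w hw => hw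
  refine ⟨{w | w ≠ 0} ∩ (fun w : ℂ => 1 / w) ⁻¹' V, fun w => g (1 / w),
    hc.isOpen_inter_preimage isOpen_ne hV, ⟨hz0, hzV⟩, ?_, fun w hw => hfg _ hw.2⟩
  refine hg.comp ?_ (fun w hw => hw.2)
  intro w hw
  have hw0 : w ≠ 0 := hw.1
  exact ((differentiableAt_const (1 : ℂ)).div differentiableAt_id hw0).differentiableWithinAt

theorem core_q {K : Type} [Field K] [NumberField K] (σ : K →+* ℂ) {n : ℕ} {ι : Type} [Fintype ι]
    (F : ι → MvPolynomial (Fin (n + 1)) K) (e : ι → ℕ) (hF : ∀ i, (F i).IsHomogeneous (e i))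
    (hyp : BrodyHyp fun i => (F i).map σ) {Q : ℂ} (hQ0 : Q ≠ 0) (hQ1 : ‖Q‖ < 1) {r : ℝ}
    (hr : 0 < r) (f : ℂ → PP ℂ n) (hf : IsHol (PDisc r) f)
    (hfX : ∀ z ∈ PDisc r, f z ∈ Zer fun i => (F i).map σ) (Y : ℕ → ℝ)
    (hev : ∀ᶠ j : ℕ in atTop, ∃ x : PP K n, (n + 2) * x.logHeight ≤ Y j ∧ f (Q ^ j) = toC σ x)
    (hstep : ∀ {r₀ M : ℝ}, 0 < r₀ → r₀ ≤ 1 → 1 ≤ M → ∀ {φ : ℂ → ℂ},
      DifferentiableOn ℂ φ (ball 0 r₀) → (∀ z ∈ ball (0 : ℂ) r₀, ‖φ z‖ ≤ M) →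
      ∀ {u v : ℕ → 𝓞 K} {j₀ : ℕ}, ValData σ Q φ u v Y j₀ →
      ∀ {R : ℝ}, 0 < R → Mer R φ → Mer (R / ‖Q‖) φ) :
    ∃ x : PP K n, ∀ z ∈ PDisc r, f z = toC σ x := by
  classical
  have hQpos : 0 < ‖Q‖ := norm_pos_iff.2 hQ0
  have hinvr : 0 < 1 / r := by positivity
  have hmemr : ∀ z : ℂ, 1 / r < ‖z‖ → 1 / z ∈ PDisc r := by
    intro z hz
    have hzpos : 0 < ‖z‖ := lt_trans hinvr hz
    have hz0 : z ≠ 0 := norm_pos_iff.1 hzpos
    refine ⟨by rw [norm_div, norm_one]; positivity, ?_⟩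
    rw [norm_div, norm_one, div_lt_iff₀ hzpos]
    rw [div_lt_iff₀ hr] at hz
    linarith
  obtain ⟨R₁, i₀, g, hR₁, hg, hgz⟩ := chart_at_infinity
    (SS_compact (fun i => (hF i).map σ)) (SS_sub _) (hyp_const (fun i => (hF i).map σ) hyp)
    hinvr (toMat_holP (hf.comp_inv hr))
    (fun z hz => toMat_mem (F := fun i => (F i).map σ) (hfX _ (hmemr z hz)))
  have hR₁pos : 0 < R₁ := hinvr.trans hR₁
  set r₀ : ℝ := min 1 (1 / R₁) with hr₀
  have hr₀pos : 0 < r₀ := lt_min one_pos (by positivity)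
  have hr₀1 : r₀ ≤ 1 := min_le_left _ _
  have hr₀r : r₀ < r := by
    refine (min_le_right _ _).trans_lt ?_
    rw [div_lt_iff₀ hR₁pos]
    rw [div_lt_iff₀ hr] at hR₁
    linarith
  -- the extension to the puncture
  set G0 : ℂ → Fin (n + 1) → ℂ := fun w => g (1 / w) with hG0
  have hinv : ∀ w ∈ ball (0 : ℂ) r₀ \ {0}, R₁ < ‖1 / w‖ := by
    rintro w ⟨hw, hw0⟩
    rw [mem_ball_zero_iff] at hw
    have hw' := hw.trans_le (min_le_right _ _)
    rw [lt_div_iff₀ hR₁pos] at hw'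
    have hwpos : 0 < ‖w‖ := norm_pos_iff.2 hw0
    rw [norm_div, norm_one, lt_div_iff₀ hwpos]
    linarith
  have hG0d : DifferentiableOn ℂ G0 (ball (0 : ℂ) r₀ \ {0}) := by
    refine hg.comp (t := {z | R₁ < ‖z‖}) ?_ hinv
    intro w hw
    have hw0 : w ≠ 0 := hw.2
    exact ((differentiableAt_const (1 : ℂ)).div differentiableAt_id hw0).differentiableWithinAt
  have hG0b : BddAbove (norm ∘ G0 '' (ball (0 : ℂ) r₀ \ {0})) := by
    refine ⟨n + 2, ?_⟩
    rintro _ ⟨w, hw, rfl⟩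
    rw [Function.comp_apply, pi_norm_le_iff_of_nonneg (by positivity)]
    exact (hgz _ (hinv w hw)).2.1
  have hGd := Complex.differentiableOn_update_limUnder_of_bddAbove
    (ball_mem_nhds (0 : ℂ) hr₀pos) hG0d hG0b
  set G : ℂ → Fin (n + 1) → ℂ := Function.update G0 0 (limUnder (𝓝[≠] (0 : ℂ)) G0) with hGdef
  have hGne : ∀ w : ℂ, w ≠ 0 → G w = g (1 / w) := fun w hw => by
    rw [hGdef, Function.update_of_ne hw]
  set M : ℝ := n + 2 + ‖G 0‖ with hM
  have hM1 : 1 ≤ M := by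
    have : (0 : ℝ) ≤ n := by positivity
    have := norm_nonneg (G 0)
    linarith
  have hGM : ∀ w ∈ ball (0 : ℂ) r₀, ∀ j, ‖G w j‖ ≤ M := by
    intro w hw j
    by_cases hw0 : w = 0
    · rw [hw0]
      have := norm_le_pi_norm (G 0) j
      have : (0 : ℝ) ≤ n := by positivity
      linarith
    · rw [hGne w hw0]
      have := (hgz _ (hinv w ⟨hw, hw0⟩)).2.1 j
      have := norm_nonneg (G 0)
      linarith
  -- the coordinates near the puncture
  have hGf : ∀ w ∈ ball (0 : ℂ) r₀, w ≠ 0 → G w i₀ = 1 ∧ G w ≠ 0 ∧ toMat f w = Phi (G w) := by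
    intro w hw hw0
    obtain ⟨h1, h2, h3, h4⟩ := hgz _ (hinv w ⟨hw, hw0⟩)
    rw [hGne w hw0]
    refine ⟨h1, h3, ?_⟩
    rw [← h4]
    change Phi (f w).rep = Phi (f (1 / (1 / w))).rep
    rw [one_div_one_div]
  have hfmk : ∀ w ∈ ball (0 : ℂ) r₀, w ≠ 0 → ∃ h : G w ≠ 0, f w = Projectivization.mk ℂ (G w) h := by
    intro w hw hw0
    obtain ⟨-, h2, h3⟩ := hGf w hw hw0
    refine ⟨h2, ?_⟩
    rw [← (f w).mk_rep]
    exact mk_eq_of_Phi _ _ h3
  have hball : ∀ w ∈ ball (0 : ℂ) r₀, w ≠ 0 → w ∈ PDisc r := by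
    intro w hw hw0
    rw [mem_ball_zero_iff] at hw
    exact ⟨norm_pos_iff.2 hw0, hw.trans hr₀r⟩
  -- integral representatives
  have hQev : ∀ᶠ j : ℕ in atTop, Q ^ j ∈ ball (0 : ℂ) r₀ :=
    (tendsto_pow_atTop_nhds_zero_of_norm_lt_one hQ1).eventually
      (isOpen_ball.mem_nhds (mem_ball_self hr₀pos))
  obtain ⟨j₀, hj₀⟩ := eventually_atTop.1 (hev.and hQev)
  have hrep : ∀ j : ℕ, j₀ ≤ j → ∃ y : Fin (n + 1) → 𝓞 K, y ≠ 0 ∧
      (∀ l, house (y l : K) ≤ Real.exp (Y j)) ∧ toMat f (Q ^ j) = Phi (fun l => σ (y l : K)) := by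
    intro j hj
    obtain ⟨⟨x, hxh, hfx⟩, -⟩ := hj₀ j hj
    obtain ⟨i, hi⟩ := Function.ne_iff.1 x.rep_nonzero
    obtain ⟨y, hy1, hy2, hy3⟩ := exists_rep (x := x.rep) (i := i) hi
    refine ⟨y, fun h0 => hy1 (congrFun h0 i), fun l => (hy3 l).trans ?_, ?_⟩
    · have h1 : Height.mulHeight x.rep = x.mulHeight := by
        conv_rhs => rw [← x.mk_rep, Projectivization.mulHeight_mk]
      rw [h1]
      rw [Projectivization.logHeight_eq_log_mulHeight] at hxh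
      have h2 : x.mulHeight ^ (n + 2) = Real.exp ((n + 2) * Real.log x.mulHeight) := by
        rw [show ((n : ℝ) + 2) = ((n + 2 : ℕ) : ℝ) by push_cast; ring, Real.exp_nat_mul,
          Real.exp_log x.mulHeight_pos]
      rw [h2]
      exact Real.exp_le_exp.2 hxh
    · unfold toMat
      rw [hfx]
      unfold toC
      rw [Phi_rep]
      have hri : σ (x.rep i) ≠ 0 := by
        rw [Ne, map_eq_zero]
        exact hi
      have hyi : σ (y i : K) ≠ 0 := by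
        rw [Ne, map_eq_zero]
        exact fun h => hy1 (RingOfIntegers.coe_eq_zero_iff.1 h)
      have h3 : (fun l => σ (y l : K)) = (σ (y i : K) / σ (x.rep i)) • fun l => σ (x.rep l) := by
        funext l
        have h4 := congrArg σ (hy2 l)
        rw [map_mul, map_mul] at h4
        rw [Pi.smul_apply, smul_eq_mul]
        field_simp
        exact h4
      rw [h3, Phi_smul (div_ne_zero hyi hri)]
  choose! y hyne hyB hyf using hrep
  have hval : ∀ l, ValData σ Q (fun z => G z l) (fun j => y j l) (fun j => y j i₀) Y j₀ := by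
    intro l j hj
    have hb := (hj₀ j hj).2
    have hne : Q ^ j ≠ 0 := pow_ne_zero _ hQ0
    obtain ⟨h1, h2, h3⟩ := hGf _ hb hne
    rw [hyf j hj] at h3
    obtain ⟨h4, h5⟩ := coords_int (hyne j hj) h2 h1 h3
    refine ⟨h4, hyB j hj l, hyB j hj i₀, ?_⟩
    rw [h5 l]
    ring
  -- meromorphic continuation
  have hmer : ∀ l R, Mer R fun z => G z l := by
    intro l R
    have hφ : DifferentiableOn ℂ (fun z => G z l) (ball 0 r₀) := differentiableOn_pi.1 hGd l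
    exact mer_all hQ0 hQ1 hr₀pos (Mer.of_differentiableOn hφ)
      (fun R hR hm => hstep hr₀pos hr₀1 hM1 hφ (fun z hz => hGM z hz l) (hval l) hR hm) R
  have hpunct : ∀ᶠ z in 𝓝[≠] (0 : ℂ), z ∈ ball (0 : ℂ) r₀ ∧ z ≠ 0 := by
    have h1 : ∀ᶠ z in 𝓝[≠] (0 : ℂ), z ∈ ball (0 : ℂ) r₀ :=
      nhdsWithin_le_nhds (isOpen_ball.mem_nhds (mem_ball_self hr₀pos))
    exact h1.and self_mem_nhdsWithin
  obtain ⟨E, hE, hEX, hEG⟩ := entire_curve hmer (P := fun i => (F i).map σ)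
    (fun i => (hF i).map σ) (by
      filter_upwards [hpunct] with z hz
      obtain ⟨h1, h2⟩ := hfmk z hz.1 hz.2
      refine ⟨h1, fun i => ?_⟩
      have h3 := hfX z (hball z hz.1 hz.2) i
      rw [h2, eval_rep ((hF i).map σ)] at h3
      exact h3)
  have hconst := hyp E hE hEX
  have hfE : ∀ᶠ z in 𝓝[≠] (0 : ℂ), f z = E 0 := by
    filter_upwards [hpunct, hEG] with z hz h1
    obtain ⟨h2, h3⟩ := h1
    obtain ⟨h4, h5⟩ := hfmk z hz.1 hz.2
    rw [h5, ← h3]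
    exact hconst z 0
  have hQne : Tendsto (fun j : ℕ => Q ^ j) atTop (𝓝[≠] (0 : ℂ)) := by
    rw [tendsto_nhdsWithin_iff]
    exact ⟨tendsto_pow_atTop_nhds_zero_of_norm_lt_one hQ1,
      Eventually.of_forall fun j => pow_ne_zero _ hQ0⟩
  obtain ⟨j, hj1, ⟨x, -, hx⟩⟩ := ((hQne.eventually hfE).and hev).exists
  refine ⟨x, ?_⟩
  have hEx : E 0 = toC σ x := by rw [← hj1, hx]
  rw [hEx] at hfE
  -- the identity theorem
  rw [eventually_nhdsWithin_iff, Metric.eventually_nhds_iff_ball] at hfE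
  obtain ⟨ε, hε, hεf⟩ := hfE
  set ρ : ℝ := min ε r / 2 with hρ
  have hmin : 0 < min ε r := lt_min hε hr
  have hρpos : 0 < ρ := by positivity
  have hρε : ρ < ε := by
    have := min_le_left ε r
    rw [hρ]
    linarith
  have hρr : ρ < r := by
    have := min_le_right ε r
    rw [hρ]
    linarith
  have hnorm : ‖((ρ : ℝ) : ℂ)‖ = ρ := by rw [Complex.norm_real, Real.norm_of_nonneg hρpos.le]
  refine hf.const_of_eventually (isPreconnected_pdisc r) (z₀ := (ρ : ℂ))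
    ⟨by rw [hnorm]; exact hρpos, by rw [hnorm]; exact hρr⟩ ?_
  have hne : (ρ : ℂ) ≠ 0 := by exact_mod_cast hρpos.ne'
  filter_upwards [isOpen_ne.mem_nhds hne, isOpen_ball.mem_nhds
    (show (ρ : ℂ) ∈ ball (0 : ℂ) ε by rw [mem_ball_zero_iff, hnorm]; exact hρε)] with z hz1 hz2
  exact hεf z hz2 hz1

end Pool.Agent.KS6_12
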