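import Pool.Agent.KS6_12.QProg.TransQ
import Pool.Agent.KS6_12.QProg.MerCont

/-! The equations satisfied by a function with algebraic values of small height along a geometric
progression. -/

set_option autoImplicit false

open NumberField Height Metric Set Filter Topology

namespace Pool.Agent.KS6_12

variable {K : Type} [Field K] [NumberField K]

lemma house_prod_exp {ι : Type} (s : Finset ι) (f : ι → K) (b : ι → ℝ)
    (h : ∀ i ∈ s, house (f i) ≤ Real.exp (b i)) :
    house (∏ i ∈ s, f i) ≤ Real.exp (∑ i ∈ s, b i) := by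
  classical
  induction s using Finset.induction_on with
  | empty =>
    have h1 := house_intCast (K := K) 1
    simp only [Int.cast_one, abs_one] at h1
    simp [h1]
  | insert a s ha ih =>
    rw [Finset.prod_insert ha, Finset.sum_insert ha, Real.exp_add]
    exact (house_mul_le _ _).trans (mul_le_mul (h a (Finset.mem_insert_self a s))
      (ih fun i hi => h i (Finset.mem_insert_of_mem hi)) (house_nonneg _) (Real.exp_pos _).le)

lemma house_pow_exp {x : K} {b : ℝ} (h : house x ≤ Real.exp b) (m : ℕ) :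
    house (x ^ m) ≤ Real.exp (m * b) := by
  have h1 := house_prod_exp (Finset.range m) (fun _ => x) (fun _ => b) fun _ _ => h
  simpa using h1

/-- values along the geometric progression -/
def ValData (σ : K →+* ℂ) (Q : ℂ) (φ : ℂ → ℂ) (u v : ℕ → 𝓞 K) (Y : ℕ → ℝ) (j₀ : ℕ) : Prop :=
  ∀ j, j₀ ≤ j → v j ≠ 0 ∧ house (u j : K) ≤ Real.exp (Y j) ∧ house (v j : K) ≤ Real.exp (Y j) ∧
    σ (u j : K) = σ (v j : K) * φ (Q ^ j)

theorem step_one {Q : ℂ} (hQ0 : Q ≠ 0) (hQ1 : ‖Q‖ < 1) {r₀ M : ℝ} (hr₀ : 0 < r₀) (hr₀1 : r₀ ≤ 1)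
    (hM : 1 ≤ M) {σ : K →+* ℂ} {φ : ℂ → ℂ} (hφ : DifferentiableOn ℂ φ (ball 0 r₀))
    (hφM : ∀ z ∈ ball (0 : ℂ) r₀, ‖φ z‖ ≤ M) {u v : ℕ → 𝓞 K} {j₀ : ℕ}
    (hval : ValData σ Q φ u v
      (fun j => Real.log (1 / ‖Q‖) * j ^ 2 / (192 * Module.finrank ℚ K * Real.log j)) j₀)
    {R : ℝ} (hR : 0 < R) (hmer : Mer R φ) : Mer (R / ‖Q‖) φ := by
  classical
  obtain ⟨J₀, hJ₀⟩ := trans_q K hQ0 hQ1 (μ := Real.log M) hr₀ hr₀1
  set δ : ℕ := Module.finrank ℚ K with hδ
  have hδpos : 0 < δ := Module.finrank_pos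
  have hδ1 : (1 : ℝ) ≤ δ := by exact_mod_cast hδpos
  set θ : ℝ := Real.log (1 / ‖Q‖) with hθ
  have hQpos : 0 < ‖Q‖ := norm_pos_iff.2 hQ0
  have hθpos : 0 < θ := Real.log_pos (by rw [lt_div_iff₀ hQpos]; linarith)
  -- the parameters
  set s : ℕ := max 2 (max J₀ j₀) + 1 with hs
  set J : ℕ := 2 ^ (s - 1) with hJ
  have hsJ : s ≤ J := by
    have : s - 1 < 2 ^ (s - 1) := Nat.lt_two_pow_self
    omega
  have hs2 : 3 ≤ s := by
    have : 2 ≤ max 2 (max J₀ j₀) := le_max_left _ _
    omega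
  have hsJ₀ : J₀ ≤ s := by
    have : J₀ ≤ max 2 (max J₀ j₀) := (le_max_left _ _).trans (le_max_right _ _)
    omega
  have hsj₀ : j₀ ≤ s := by
    have : j₀ ≤ max 2 (max J₀ j₀) := (le_max_right _ _).trans (le_max_right _ _)
    omega
  have hcard : Fintype.card (Fin s → Fin 2) = 2 * J := by
    rw [Fintype.card_fun, Fintype.card_fin, Fintype.card_fin, hJ, ← pow_succ']
    congr 1
  have hQball : ∀ (i : ℕ), ∀ z ∈ ball (0 : ℂ) r₀, Q ^ i * z ∈ ball (0 : ℂ) r₀ := by
    intro i z hz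
    rw [mem_ball_zero_iff] at hz ⊢
    rw [norm_mul, norm_pow]
    calc ‖Q‖ ^ i * ‖z‖ ≤ 1 * ‖z‖ :=
          mul_le_mul_of_nonneg_right (pow_le_one₀ hQpos.le hQ1.le) (norm_nonneg _)
      _ < r₀ := by rw [one_mul]; exact hz
  have hlogJ : ∀ j : ℕ, J ≤ j → (s : ℝ) ≤ 3 * Real.log j ∧ 0 < Real.log j := by
    intro j hj
    have h1 : Real.log J = (s - 1) * Real.log 2 := by
      rw [hJ]
      push_cast
      rw [Real.log_pow, Nat.cast_sub (by omega)]
      push_cast
      ring
    have hJpos : (0 : ℝ) < J := by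
      have : 0 < J := by omega
      exact_mod_cast this
    have h2 : Real.log J ≤ Real.log j := Real.log_le_log hJpos (by exact_mod_cast hj)
    have h3 : (3 : ℝ) ≤ s := by exact_mod_cast hs2
    have h4 := Real.log_two_gt_d9
    have h5 : (s - 1) * 0.69 ≤ (s - 1) * Real.log 2 :=
      mul_le_mul_of_nonneg_left (by linarith) (by linarith)
    constructor
    · linarith
    · linarith
  have hY : ∀ j : ℕ, J ≤ j → ∀ i : ℕ, i < s →
      θ * ((j + i : ℕ) : ℝ) ^ 2 / (192 * δ * Real.log ((j + i : ℕ) : ℝ)) ≤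
        θ * (2 * j) ^ 2 / (192 * δ * Real.log j) := by
    intro j hj i hi
    have hlog := (hlogJ j hj).2
    have h0 : (0 : ℝ) < j := by
      have : 0 < j := by omega
      exact_mod_cast this
    have h1 : Real.log j ≤ Real.log ((j + i : ℕ) : ℝ) := by
      refine Real.log_le_log h0 ?_
      push_cast
      linarith [(Nat.cast_nonneg i : (0 : ℝ) ≤ i)]
    have h2 : ((j + i : ℕ) : ℝ) ≤ 2 * j := by
      have : j + i ≤ 2 * j := by omega
      exact_mod_cast this
    have h3 : ((j + i : ℕ) : ℝ) ^ 2 ≤ (2 * j) ^ 2 := pow_le_pow_left₀ (by positivity) h2 2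
    exact div_le_div₀ (by positivity) (mul_le_mul_of_nonneg_left h3 hθpos.le) (by positivity)
      (mul_le_mul_of_nonneg_left h1 (by positivity))
  have hexp : ∀ j : ℕ, J ≤ j → (s : ℝ) * (θ * (2 * j) ^ 2 / (192 * δ * Real.log j)) ≤
      θ / (16 * δ) * j ^ 2 := by
    intro j hj
    obtain ⟨h1, h2⟩ := hlogJ j hj
    have h3 : θ / (16 * δ) * j ^ 2 =
        (3 * Real.log j) * (θ * (2 * j) ^ 2 / (192 * δ * Real.log j)) := by
      field_simp
      ring
    rw [h3]
    exact mul_le_mul_of_nonneg_right h1 (by positivity)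
  obtain ⟨ξ, hξ, hξ0⟩ := hJ₀ σ J (hsJ₀.trans hsJ) (Fin s → Fin 2) hcard
    (fun e z => ∏ i : Fin s, φ (Q ^ (i : ℕ) * z) ^ (e i : ℕ))
    (fun e => by
      refine DifferentiableOn.fun_finsetProd fun i _ => ?_
      refine DifferentiableOn.pow ?_ _
      exact hφ.comp (by fun_prop) (hQball i))
    (fun e z hz => by
      rw [norm_prod]
      calc ∏ i : Fin s, ‖φ (Q ^ (i : ℕ) * z) ^ (e i : ℕ)‖ ≤ ∏ _i : Fin s, M := by
            refine Finset.prod_le_prod (fun _ _ => norm_nonneg _) fun i _ => ?_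
            rw [norm_pow]
            have h1 := hφM _ (hQball i z hz)
            have h2 : (e i : ℕ) ≤ 1 := by omega
            calc ‖φ (Q ^ (i : ℕ) * z)‖ ^ (e i : ℕ) ≤ M ^ (e i : ℕ) :=
                  pow_le_pow_left₀ (norm_nonneg _) h1 _
              _ ≤ M ^ 1 := pow_le_pow_right₀ hM h2
              _ = M := pow_one M
        _ = M ^ s := by simp
        _ = Real.exp (s * Real.log M) := by
            rw [Real.exp_nat_mul, Real.exp_log (by linarith)]
        _ ≤ Real.exp (Real.log M * J) := by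
            refine Real.exp_le_exp.2 ?_
            rw [mul_comm]
            exact mul_le_mul_of_nonneg_left (by exact_mod_cast hsJ) (Real.log_nonneg hM))
    (fun j e => ∏ i : Fin s, (u (j + i) ^ (e i : ℕ) * v (j + i) ^ (1 - (e i : ℕ))))
    (fun j => ∏ i : Fin s, σ (v (j + i) : K))
    (fun j hj => by
      have hj₀ : ∀ i : ℕ, j₀ ≤ j + i := fun i => by omega
      refine ⟨fun e => ?_, ?_, ?_, fun e => ?_⟩
      · have h1 : house ((∏ i : Fin s, (u (j + i) ^ (e i : ℕ) * v (j + i) ^ (1 - (e i : ℕ))) :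
            𝓞 K) : K) ≤ Real.exp (∑ _i : Fin s, θ * (2 * j) ^ 2 / (192 * δ * Real.log j)) := by
          have h2 : ((∏ i : Fin s, (u (j + i) ^ (e i : ℕ) * v (j + i) ^ (1 - (e i : ℕ))) :
              𝓞 K) : K) = ∏ i : Fin s, ((u (j + i) : K) ^ (e i : ℕ) *
                (v (j + i) : K) ^ (1 - (e i : ℕ))) := by
            simp [RingOfIntegers.coe_eq_algebraMap, map_prod]
          rw [h2]
          refine house_prod_exp _ _ _ fun i _ => ?_
          obtain ⟨-, h3, h4, -⟩ := hval (j + i) (hj₀ i)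
          have h5 := hY j hj i i.2
          have h6 : (e i : ℕ) = 0 ∨ (e i : ℕ) = 1 := by omega
          rcases h6 with h6 | h6
          · rw [h6, pow_zero, one_mul, Nat.sub_zero, pow_one]
            exact h4.trans (Real.exp_le_exp.2 h5)
          · rw [h6, pow_one, Nat.sub_self, pow_zero, mul_one]
            exact h3.trans (Real.exp_le_exp.2 h5)
        refine h1.trans (Real.exp_le_exp.2 ?_)
        rw [Finset.sum_const, Finset.card_univ, Fintype.card_fin, nsmul_eq_mul]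
        exact hexp j hj
      · refine Finset.prod_ne_zero_iff.2 fun i _ => ?_
        rw [Ne, map_eq_zero]
        exact fun h => (hval (j + i) (hj₀ i)).1 (RingOfIntegers.coe_eq_zero_iff.1 h)
      · rw [norm_prod]
        calc ∏ i : Fin s, ‖σ (v (j + i) : K)‖ ≤
              ∏ _i : Fin s, Real.exp (θ * (2 * j) ^ 2 / (192 * δ * Real.log j)) := by
              refine Finset.prod_le_prod (fun _ _ => norm_nonneg _) fun i _ => ?_
              obtain ⟨-, -, h4, -⟩ := hval (j + i) (hj₀ i)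
              exact (norm_embedding_le_house _ σ).trans
                (h4.trans (Real.exp_le_exp.2 (hY j hj i i.2)))
          _ = Real.exp (s * (θ * (2 * j) ^ 2 / (192 * δ * Real.log j))) := by
              rw [Real.exp_nat_mul]
              simp
          _ ≤ _ := Real.exp_le_exp.2 (hexp j hj)
      · have h2 : ((∏ i : Fin s, (u (j + i) ^ (e i : ℕ) * v (j + i) ^ (1 - (e i : ℕ))) :
            𝓞 K) : K) = ∏ i : Fin s, ((u (j + i) : K) ^ (e i : ℕ) *
              (v (j + i) : K) ^ (1 - (e i : ℕ))) := by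
          simp [RingOfIntegers.coe_eq_algebraMap, map_prod]
        rw [h2, map_prod, ← Finset.prod_mul_distrib]
        refine Finset.prod_congr rfl fun i _ => ?_
        obtain ⟨-, -, -, h4⟩ := hval (j + i) (hj₀ i)
        have h5 : Q ^ (i : ℕ) * Q ^ j = Q ^ (j + i) := by ring
        have h6 : (e i : ℕ) = 0 ∨ (e i : ℕ) = 1 := by omega
        rw [map_mul, map_pow, map_pow, h4, h5]
        rcases h6 with h6 | h6
        · rw [h6]
          simp
        · rw [h6]
          simp)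
  refine step_multi hQ0 hQ1 hR hmer s (fun e _ => σ (ξ e : K)) (fun e => by fun_prop) ?_ ?_
  · obtain ⟨e, he⟩ := Function.ne_iff.1 hξ
    refine ⟨e, fun h => he ?_⟩
    have := congrFun h 0
    simp only [Pi.zero_apply, map_eq_zero] at this
    exact RingOfIntegers.coe_eq_zero_iff.1 this
  · have : ∀ᶠ z in 𝓝[≠] (0 : ℂ), z ∈ ball (0 : ℂ) r₀ :=
      nhdsWithin_le_nhds (isOpen_ball.mem_nhds (mem_ball_self hr₀))
    filter_upwards [this] with z hz
    exact hξ0 z hz


/-- the constant of the second part -/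
theorem step_two (σ : K →+* ℂ) {q : K} (hq0 : σ q ≠ 0) (hq1 : ‖σ q‖ < 1) :
    ∃ c : ℝ, 0 < c ∧ ∀ {r₀ M : ℝ}, 0 < r₀ → r₀ ≤ 1 → 1 ≤ M → ∀ {φ : ℂ → ℂ},
      DifferentiableOn ℂ φ (ball 0 r₀) → (∀ z ∈ ball (0 : ℂ) r₀, ‖φ z‖ ≤ M) →
      ∀ {u v : ℕ → 𝓞 K} {j₀ : ℕ}, ValData σ (σ q) φ u v (fun j => c * j ^ 2) j₀ →
      ∀ {R : ℝ}, Mer R φ → Mer (R / ‖σ q‖) φ := by
  classical
  set Q : ℂ := σ q with hQ
  set δ : ℕ := Module.finrank ℚ K with hδ
  have hδpos : 0 < δ := Module.finrank_pos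
  have hδ1 : (1 : ℝ) ≤ δ := by exact_mod_cast hδpos
  set θ : ℝ := Real.log (1 / ‖Q‖) with hθ
  have hQpos : 0 < ‖Q‖ := norm_pos_iff.2 hq0
  have hθpos : 0 < θ := Real.log_pos (by rw [lt_div_iff₀ hQpos]; linarith)
  -- the height of `q`
  obtain ⟨b, a, hb, -, hab, -⟩ := exists_den q
  obtain ⟨h, hh⟩ : ∃ h : ℝ, 0 < h ∧ house (a : K) ≤ Real.exp h ∧ house ((b : 𝓞 K) : K) ≤
      Real.exp h := by
    refine ⟨house (a : K) + house ((b : 𝓞 K) : K) + 1, ?_, ?_, ?_⟩
    · have := house_nonneg (a : K)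
      have := house_nonneg ((b : 𝓞 K) : K)
      linarith
    · refine le_trans ?_ (Real.add_one_le_exp _)
      have := house_nonneg ((b : 𝓞 K) : K)
      linarith
    · refine le_trans ?_ (Real.add_one_le_exp _)
      have := house_nonneg (a : K)
      linarith
  obtain ⟨hh0, hha, hhb⟩ := hh
  have hσb : σ ((b : 𝓞 K) : K) ≠ 0 := by
    rw [Ne, map_eq_zero]
    intro h0
    have h1 : ((b : ℕ) : K) = 0 := by simpa using h0
    exact hb (by exact_mod_cast h1)
  have hσa : σ (a : K) = Q * σ ((b : 𝓞 K) : K) := by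
    rw [hab, map_mul, hQ, mul_comm]
    simp
  obtain ⟨κ', hκ'⟩ := exists_nat_gt (32 * δ * h / θ)
  set κ : ℕ := κ' + 1 with hκ
  have hκ1 : 1 ≤ κ := by omega
  have hκR : (1 : ℝ) ≤ κ := by exact_mod_cast hκ1
  have hκh : 32 * δ * h ≤ κ * θ := by
    rw [div_lt_iff₀ hθpos] at hκ'
    have : (κ' : ℝ) ≤ κ := by rw [hκ]; push_cast; linarith
    have := mul_le_mul_of_nonneg_right this hθpos.le
    linarith
  refine ⟨θ / (256 * δ * κ), by positivity, ?_⟩
  intro r₀ M hr₀ hr₀1 hM φ hφ hφM u v j₀ hval R hmer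
  obtain ⟨J₀, hJ₀⟩ := trans_q K hq0 hq1 (μ := Real.log M) hr₀ hr₀1
  set t : ℕ := max 2 (max J₀ j₀) with ht
  set J : ℕ := κ * t with hJ
  have ht2 : 2 ≤ t := le_max_left _ _
  have htJ : t ≤ J := Nat.le_mul_of_pos_left t hκ1
  have hJJ₀ : J₀ ≤ J := ((le_max_left _ _).trans (le_max_right _ _)).trans htJ
  have hJj₀ : j₀ ≤ J := ((le_max_right _ _).trans (le_max_right _ _)).trans htJ
  have hκJ : 2 * κ ≤ J := by
    rw [hJ, mul_comm 2 κ]
    exact Nat.mul_le_mul_left κ ht2
  have hcard : Fintype.card (Fin (2 * κ) × Fin t) = 2 * J := by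
    rw [Fintype.card_prod, Fintype.card_fin, Fintype.card_fin, hJ, mul_assoc]
  have hQball : ∀ (i : ℕ), ∀ z ∈ ball (0 : ℂ) r₀, Q ^ i * z ∈ ball (0 : ℂ) r₀ := by
    intro i z hz
    rw [mem_ball_zero_iff] at hz ⊢
    rw [norm_mul, norm_pow]
    calc ‖Q‖ ^ i * ‖z‖ ≤ 1 * ‖z‖ :=
          mul_le_mul_of_nonneg_right (pow_le_one₀ hQpos.le hq1.le) (norm_nonneg _)
      _ < r₀ := by rw [one_mul]; exact hz
  set c : ℝ := θ / (256 * δ * κ) with hc
  have hc0 : 0 < c := by positivity
  have hY : ∀ j : ℕ, J ≤ j → ∀ i : ℕ, i < 2 * κ → c * ((j + i : ℕ) : ℝ) ^ 2 ≤ c * (2 * j) ^ 2 := by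
    intro j hj i hi
    refine mul_le_mul_of_nonneg_left (pow_le_pow_left₀ (by positivity) ?_ 2) hc0.le
    have : j + i ≤ 2 * j := by omega
    exact_mod_cast this
  -- the total height
  have hexp : ∀ j : ℕ, J ≤ j → (j * (t - 1 : ℕ) : ℝ) * h + (2 * κ : ℕ) * (c * (2 * j) ^ 2) ≤
      θ / (16 * δ) * j ^ 2 := by
    intro j hj
    have h1 : (κ : ℝ) * (t - 1 : ℕ) ≤ j := by
      have h2 : κ * (t - 1) ≤ κ * t := Nat.mul_le_mul_left κ (by omega)
      have h3 : κ * (t - 1) ≤ j := by omega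
      exact_mod_cast h3
    have hj0 : (0 : ℝ) ≤ j := by positivity
    have h2 : (2 * κ : ℕ) * (c * (2 * j) ^ 2) = θ / (32 * δ) * j ^ 2 := by
      rw [hc]
      push_cast
      field_simp
      ring
    have h3 : (j * (t - 1 : ℕ) : ℝ) * h ≤ θ / (32 * δ) * j ^ 2 := by
      have h4 : (j * (t - 1 : ℕ) : ℝ) * (32 * δ * h) ≤ (j * (t - 1 : ℕ) : ℝ) * (κ * θ) :=
        mul_le_mul_of_nonneg_left hκh (by positivity)
      have h5 : (j * (t - 1 : ℕ) : ℝ) * (κ * θ) ≤ θ * j ^ 2 := by
        have := mul_le_mul_of_nonneg_left h1 (mul_nonneg hθpos.le hj0)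
        calc (j * (t - 1 : ℕ) : ℝ) * (κ * θ) = θ * j * (κ * (t - 1 : ℕ)) := by ring
          _ ≤ θ * j * j := this
          _ = θ * j ^ 2 := by ring
      rw [div_mul_eq_mul_div, le_div_iff₀ (by positivity)]
      linarith
    have h4 : θ / (16 * δ) * j ^ 2 = θ / (32 * δ) * j ^ 2 + θ / (32 * δ) * j ^ 2 := by
      field_simp
      ring
    rw [h4, h2]
    linarith
  have hexp' : ∀ j : ℕ, J ≤ j → ∀ α : ℕ, α ≤ t - 1 → (j * α : ℕ) * h +
      ((j * (t - 1 - α) : ℕ) * h + (2 * κ : ℕ) * (c * (2 * j) ^ 2)) ≤ θ / (16 * δ) * j ^ 2 := by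
    intro j hj α hα
    refine le_trans (le_of_eq ?_) (hexp j hj)
    have h1 : ((t - 1 - α : ℕ) : ℝ) = (t - 1 : ℕ) - α := by rw [Nat.cast_sub hα]
    push_cast [h1]
    ring
  obtain ⟨ξ, hξ, hξ0⟩ := hJ₀ σ J hJJ₀ (Fin (2 * κ) × Fin t) hcard
    (fun e z => z ^ (e.2 : ℕ) * φ (Q ^ (e.1 : ℕ) * z))
    (fun e => by
      refine DifferentiableOn.mul (by fun_prop) ?_
      exact hφ.comp (by fun_prop) (hQball e.1))
    (fun e z hz => by
      have hz1 : ‖z‖ ≤ 1 := by
        rw [mem_ball_zero_iff] at hz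
        linarith
      rw [norm_mul, norm_pow]
      calc ‖z‖ ^ (e.2 : ℕ) * ‖φ (Q ^ (e.1 : ℕ) * z)‖ ≤ 1 * M :=
            mul_le_mul (pow_le_one₀ (norm_nonneg _) hz1) (hφM _ (hQball e.1 z hz)) (norm_nonneg _)
              zero_le_one
        _ = Real.exp (Real.log M * 1) := by rw [mul_one, Real.exp_log (by linarith), one_mul]
        _ ≤ Real.exp (Real.log M * J) := by
            refine Real.exp_le_exp.2 (mul_le_mul_of_nonneg_left ?_ (Real.log_nonneg hM))
            have : 1 ≤ J := by omega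
            exact_mod_cast this)
    (fun j e => a ^ (j * (e.2 : ℕ)) * ((b : 𝓞 K) ^ (j * (t - 1 - (e.2 : ℕ))) *
      ∏ i : Fin (2 * κ), (if i = e.1 then u (j + i) else v (j + i))))
    (fun j => σ ((b : 𝓞 K) : K) ^ (j * (t - 1)) * ∏ i : Fin (2 * κ), σ (v (j + i) : K))
    (fun j hj => by
      have hj₀ : ∀ i : ℕ, j₀ ≤ j + i := fun i => by omega
      refine ⟨fun e => ?_, ?_, ?_, fun e => ?_⟩
      · have hα : (e.2 : ℕ) ≤ t - 1 := by omega
        have h2 : ((a ^ (j * (e.2 : ℕ)) * ((b : 𝓞 K) ^ (j * (t - 1 - (e.2 : ℕ))) *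
            ∏ i : Fin (2 * κ), (if i = e.1 then u (j + i) else v (j + i))) : 𝓞 K) : K) =
            (a : K) ^ (j * (e.2 : ℕ)) * (((b : 𝓞 K) : K) ^ (j * (t - 1 - (e.2 : ℕ))) *
            ∏ i : Fin (2 * κ), (if i = e.1 then (u (j + i) : K) else (v (j + i) : K))) := by
          simp only [RingOfIntegers.coe_eq_algebraMap, map_mul, map_pow, map_prod, apply_ite]
        have h3 : house (∏ i : Fin (2 * κ), (if i = e.1 then (u (j + i) : K) else
            (v (j + i) : K))) ≤ Real.exp (∑ _i : Fin (2 * κ), c * (2 * j) ^ 2) := by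
          refine house_prod_exp _ _ _ fun i _ => ?_
          obtain ⟨-, h3, h4, -⟩ := hval (j + i) (hj₀ i)
          have h5 := hY j hj i i.2
          split_ifs
          · exact h3.trans (Real.exp_le_exp.2 h5)
          · exact h4.trans (Real.exp_le_exp.2 h5)
        rw [Finset.sum_const, Finset.card_univ, Fintype.card_fin, nsmul_eq_mul] at h3
        rw [h2]
        refine (house_mul_le _ _).trans ?_
        refine le_trans (mul_le_mul (house_pow_exp hha _) ((house_mul_le _ _).trans (mul_le_mul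
          (house_pow_exp hhb _) h3 (house_nonneg _) (Real.exp_pos _).le)) (house_nonneg _)
          (Real.exp_pos _).le) ?_
        rw [← Real.exp_add, ← Real.exp_add]
        exact Real.exp_le_exp.2 (hexp' j hj _ hα)
      · refine mul_ne_zero (pow_ne_zero _ hσb) (Finset.prod_ne_zero_iff.2 fun i _ => ?_)
        rw [Ne, map_eq_zero]
        exact fun h => (hval (j + i) (hj₀ i)).1 (RingOfIntegers.coe_eq_zero_iff.1 h)
      · rw [norm_mul, norm_pow, norm_prod]
        have h1 : ‖σ ((b : 𝓞 K) : K)‖ ^ (j * (t - 1)) ≤ Real.exp ((j * (t - 1) : ℕ) * h) := by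
          rw [Real.exp_nat_mul]
          exact pow_le_pow_left₀ (norm_nonneg _) ((norm_embedding_le_house _ σ).trans hhb) _
        have h2 : ∏ i : Fin (2 * κ), ‖σ (v (j + i) : K)‖ ≤
            Real.exp ((2 * κ : ℕ) * (c * (2 * j) ^ 2)) := by
          calc ∏ i : Fin (2 * κ), ‖σ (v (j + i) : K)‖ ≤
                ∏ _i : Fin (2 * κ), Real.exp (c * (2 * j) ^ 2) := by
                refine Finset.prod_le_prod (fun _ _ => norm_nonneg _) fun i _ => ?_
                obtain ⟨-, -, h4, -⟩ := hval (j + i) (hj₀ i)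
                exact (norm_embedding_le_house _ σ).trans
                  (h4.trans (Real.exp_le_exp.2 (hY j hj i i.2)))
            _ = Real.exp ((2 * κ : ℕ) * (c * (2 * j) ^ 2)) := by
                rw [Real.exp_nat_mul]
                simp
        refine (mul_le_mul h1 h2 (Finset.prod_nonneg fun _ _ => norm_nonneg _)
          (Real.exp_pos _).le).trans ?_
        rw [← Real.exp_add]
        refine Real.exp_le_exp.2 (le_trans (le_of_eq ?_) (hexp j hj))
        push_cast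
        ring
      · have hα : (e.2 : ℕ) ≤ t - 1 := by omega
        have h2 : ((a ^ (j * (e.2 : ℕ)) * ((b : 𝓞 K) ^ (j * (t - 1 - (e.2 : ℕ))) *
            ∏ i : Fin (2 * κ), (if i = e.1 then u (j + i) else v (j + i))) : 𝓞 K) : K) =
            (a : K) ^ (j * (e.2 : ℕ)) * (((b : 𝓞 K) : K) ^ (j * (t - 1 - (e.2 : ℕ))) *
            ∏ i : Fin (2 * κ), (if i = e.1 then (u (j + i) : K) else (v (j + i) : K))) := by
          simp only [RingOfIntegers.coe_eq_algebraMap, map_mul, map_pow, map_prod, apply_ite]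
        rw [h2, map_mul, map_mul, map_pow, map_pow, map_prod, hσa]
        have h3 : ∏ i : Fin (2 * κ), σ (if i = e.1 then (u (j + i) : K) else (v (j + i) : K)) =
            (∏ i : Fin (2 * κ), σ (v (j + i) : K)) * φ (Q ^ (e.1 : ℕ) * Q ^ j) := by
          have h4 : ∀ i : Fin (2 * κ), σ (if i = e.1 then (u (j + i) : K) else (v (j + i) : K)) =
              σ (v (j + i) : K) * (if i = e.1 then φ (Q ^ (e.1 : ℕ) * Q ^ j) else 1) := by
            intro i
            split_ifs with hi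
            · obtain ⟨-, -, -, h4⟩ := hval (j + i) (hj₀ i)
              have h5 : Q ^ (e.1 : ℕ) * Q ^ j = Q ^ (j + i) := by
                rw [hi]
                ring
              rw [h5]
              exact h4
            · rw [mul_one]
          simp_rw [h4]
          rw [Finset.prod_mul_distrib, Finset.prod_ite_eq']
          simp
        rw [h3]
        have h5 : σ ((b : 𝓞 K) : K) ^ (j * (t - 1)) = σ ((b : 𝓞 K) : K) ^ (j * (e.2 : ℕ)) *
            σ ((b : 𝓞 K) : K) ^ (j * (t - 1 - (e.2 : ℕ))) := by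
          rw [← pow_add, ← mul_add]
          congr 2
          omega
        rw [h5, mul_pow, ← pow_mul]
        ring)
  refine step_linear hq0 hq1 hmer (2 * κ)
    (fun i z => ∑ α : Fin t, σ (ξ (i, α) : K) * z ^ (α : ℕ)) (fun i => by fun_prop) ?_ ?_
  · obtain ⟨⟨i, α⟩, he⟩ := Function.ne_iff.1 hξ
    refine ⟨i, fun h => he ?_⟩
    have h1 : (∑ α : Fin t, Polynomial.monomial (α : ℕ) (σ (ξ (i, α) : K)) : Polynomial ℂ) = 0 := by
      apply Polynomial.funext
      intro z
      have := congrFun h z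
      simp only [Polynomial.eval_finsetSum, Polynomial.eval_monomial, Polynomial.eval_zero]
      exact this
    have h2 := congrArg (fun p => Polynomial.coeff p (α : ℕ)) h1
    simp only [Polynomial.finsetSum_coeff, Polynomial.coeff_monomial, Polynomial.coeff_zero] at h2
    rw [Finset.sum_eq_single α] at h2
    · simp only [if_true, map_eq_zero] at h2
      exact RingOfIntegers.coe_eq_zero_iff.1 h2
    · intro β _ hβ
      rw [if_neg]
      exact fun h => hβ (Fin.ext h)
    · intro h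
      exact absurd (Finset.mem_univ α) h
  · have : ∀ᶠ z in 𝓝[≠] (0 : ℂ), z ∈ ball (0 : ℂ) r₀ :=
      nhdsWithin_le_nhds (isOpen_ball.mem_nhds (mem_ball_self hr₀))
    filter_upwards [this] with z hz
    rw [← hξ0 z hz, Fintype.sum_prod_type]
    refine Finset.sum_congr rfl fun i _ => ?_
    rw [Finset.sum_mul]
    refine Finset.sum_congr rfl fun α _ => ?_
    ring

end Pool.Agent.KS6_12
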