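import Pool.Agent.KS6_12.Hyp.Phase1

/-! A linear relation between holomorphic functions whose values along a geometric progression
are algebraic of small height. -/

set_option autoImplicit false

open NumberField Height Metric Set Filter Topology

namespace Pool.Agent.KS6_12

lemma pow_inj_of_norm {Q : ℂ} (hQ0 : Q ≠ 0) (hQ1 : ‖Q‖ < 1) :
    Function.Injective (fun i : ℕ => Q ^ i) := by
  intro a b hab
  have h1 : ‖Q‖ ^ a = ‖Q‖ ^ b := by
    have := congrArg norm hab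
    simpa using this
  exact pow_right_injective₀ (norm_pos_iff.2 hQ0) hQ1.ne h1

/-- the bound of a function with zeros at `Q ^ i`, `J ≤ i < j`, at the point `Q ^ j` -/
theorem schwarz_geom {Q : ℂ} (hQ0 : Q ≠ 0) (hQ1 : ‖Q‖ < 1) {r₀ : ℝ} (hr₀ : 0 < r₀)
    {Φ : ℂ → ℂ} (hΦ : DifferentiableOn ℂ Φ (ball 0 r₀)) {B : ℝ}
    (hB : ∀ z ∈ ball (0 : ℂ) r₀, ‖Φ z‖ ≤ B) {J j : ℕ} (hJj : J ≤ j) (hJ : ‖Q‖ ^ J ≤ r₀ / 4)
    (hz : ∀ i, J ≤ i → i < j → Φ (Q ^ i) = 0) :
    ‖Φ (Q ^ j)‖ ≤ (∏ i ∈ Finset.Ico J j, (8 / r₀ * ‖Q‖ ^ i)) * B := by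
  classical
  have hinj := pow_inj_of_norm hQ0 hQ1
  have hQJ : ∀ i : ℕ, J ≤ i → Q ^ i ∈ closedBall (0 : ℂ) (r₀ / 4) := by
    intro i hi
    rw [mem_closedBall_zero_iff, norm_pow]
    exact (pow_le_pow_of_le_one (norm_nonneg _) hQ1.le hi).trans hJ
  obtain ⟨G, -, hgG, hGB⟩ := exists_quot (c := (0 : ℂ)) (r := r₀ / 4) (R' := r₀ / 2) (R := r₀)
    (by linarith) (by linarith) (by linarith) hΦ
    (fun z hz' => hB z (closedBall_subset_ball (by linarith) hz'))
    ((Finset.Ico J j).image fun i : ℕ => Q ^ i) (by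
      intro a ha
      obtain ⟨i, hi, rfl⟩ := Finset.mem_image.1 ha
      obtain ⟨h1, h2⟩ := Finset.mem_Ico.1 hi
      exact ⟨hQJ i h1, hz i h1 h2⟩)
  have hjb : Q ^ j ∈ closedBall (0 : ℂ) (r₀ / 4) := hQJ j hJj
  rw [hgG _ (closedBall_subset_ball (by linarith) hjb), norm_mul, norm_prod,
    Finset.prod_image (fun a _ b _ hab => hinj hab)]
  have h1 := hGB _ (closedBall_subset_closedBall (by linarith) hjb)
  rw [Finset.card_image_of_injective _ hinj, show r₀ / 2 - r₀ / 4 = r₀ / 4 by ring] at h1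
  have hB0 : 0 ≤ B := (norm_nonneg _).trans (hB 0 (mem_ball_self hr₀))
  have h2 : ∏ i ∈ Finset.Ico J j, ‖Q ^ j - Q ^ i‖ ≤ ∏ i ∈ Finset.Ico J j, (2 * ‖Q‖ ^ i) := by
    refine Finset.prod_le_prod (fun _ _ => norm_nonneg _) fun i hi => ?_
    obtain ⟨h3, h4⟩ := Finset.mem_Ico.1 hi
    have h5 : ‖Q‖ ^ j ≤ ‖Q‖ ^ i := pow_le_pow_of_le_one (norm_nonneg _) hQ1.le h4.le
    calc ‖Q ^ j - Q ^ i‖ ≤ ‖Q ^ j‖ + ‖Q ^ i‖ := norm_sub_le _ _
      _ ≤ 2 * ‖Q‖ ^ i := by rw [norm_pow, norm_pow]; linarith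
  calc (∏ i ∈ Finset.Ico J j, ‖Q ^ j - Q ^ i‖) * ‖G (Q ^ j)‖
      ≤ (∏ i ∈ Finset.Ico J j, (2 * ‖Q‖ ^ i)) * (B / (r₀ / 4) ^ (Finset.Ico J j).card) :=
        mul_le_mul h2 h1 (norm_nonneg _) (Finset.prod_nonneg fun _ _ => by positivity)
    _ = (∏ i ∈ Finset.Ico J j, (8 / r₀ * ‖Q‖ ^ i)) * B := by
        have h6 : ∏ i ∈ Finset.Ico J j, (8 / r₀ * ‖Q‖ ^ i) =
            (∏ i ∈ Finset.Ico J j, (2 * ‖Q‖ ^ i)) * (1 / (r₀ / 4) ^ (Finset.Ico J j).card) := by
          rw [← one_div_pow, ← Finset.prod_const, ← Finset.prod_mul_distrib]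
          refine Finset.prod_congr rfl fun i _ => ?_
          field_simp
          norm_num
        rw [h6]
        ring

/-- the product of the small factors -/
lemma prod_geom_le {ρ θ lam r₀ : ℝ} (hρ : 0 < ρ) (hr₀ : 0 < r₀) (hθ : θ = Real.log (1 / ρ))
    (hlam : lam = Real.log (8 / r₀)) (hlam0 : 0 ≤ lam) (hθ0 : 0 ≤ θ) {J j : ℕ} (hJj : 2 * J ≤ j) :
    ∏ i ∈ Finset.Ico J j, (8 / r₀ * ρ ^ i) ≤ Real.exp (lam * j - θ * (j * (j - 1)) / 4) := by
  have h1 : ∀ i : ℕ, 8 / r₀ * ρ ^ i = Real.exp (lam - θ * i) := by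
    intro i
    rw [Real.exp_sub, hlam, Real.exp_log (by positivity), mul_comm θ, Real.exp_nat_mul, hθ,
      Real.exp_log (by positivity)]
    rw [div_pow, one_pow]
    field_simp
  simp_rw [h1]
  rw [← Real.exp_sum]
  refine Real.exp_le_exp.2 ?_
  rw [Finset.sum_sub_distrib, ← Finset.mul_sum, Finset.sum_const, Nat.card_Ico, nsmul_eq_mul]
  have h2 : ((∑ i ∈ Finset.Ico J j, i : ℕ) : ℝ) * 2 = ((j : ℝ) - J) * (j + J - 1) := by
    have h3 : ∀ m : ℕ, (∑ i ∈ Finset.range m, (i : ℝ)) * 2 = m * (m - 1) := by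
      intro m
      induction m with
      | zero => simp
      | succ m ih => rw [Finset.sum_range_succ, add_mul, ih]; push_cast; ring
    have h4 : ∑ i ∈ Finset.Ico J j, (i : ℝ) =
        ∑ i ∈ Finset.range j, (i : ℝ) - ∑ i ∈ Finset.range J, (i : ℝ) := by
      rw [Finset.sum_Ico_eq_sub _ (by omega)]
    push_cast
    rw [h4, sub_mul, h3, h3]
    ring
  have h5 : (∑ i ∈ Finset.Ico J j, (i : ℝ)) = ((∑ i ∈ Finset.Ico J j, i : ℕ) : ℝ) := by push_cast; rfl
  rw [h5]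
  have h6 : (2 : ℝ) * J ≤ j := by exact_mod_cast hJj
  have hJ0 : (0 : ℝ) ≤ J := by positivity
  rcases Nat.eq_zero_or_pos j with hj0 | hj0
  · subst hj0
    have : J = 0 := by omega
    subst this
    simp
  have hj1 : (1 : ℝ) ≤ j := by exact_mod_cast hj0
  have h7 : ((j - J : ℕ) : ℝ) ≤ j := by
    have : j - J ≤ j := by omega
    exact_mod_cast this
  have h8 : (j : ℝ) * (j - 1) / 4 ≤ ((∑ i ∈ Finset.Ico J j, i : ℕ) : ℝ) := by
    have h9 : (j : ℝ) / 2 * (j - 1) ≤ ((j : ℝ) - J) * (j + J - 1) :=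
      mul_le_mul (by linarith) (by linarith) (by linarith) (by linarith)
    linarith
  have h10 := mul_le_mul_of_nonneg_left h8 hθ0
  have h11 := mul_le_mul_of_nonneg_right h7 hlam0
  linarith

/-- the final inequality -/
lemma geom_ineq {δ θ j lJ lX lC μ lam : ℝ} (hδ1 : 1 ≤ δ) (hj1 : 1 ≤ j)
    (hlJ : lJ ≤ j) (hlC : 0 ≤ lC) (hlX : lX ≤ lC + lJ + θ / (16 * δ) * j ^ 2)
    (hj : 8 * (2 * δ + δ * lC + μ + lam + θ / 4) < θ * j) :
    (θ / (16 * δ) * j ^ 2 + (lJ + lX + μ * j) + (lam * j - θ * (j * (j - 1)) / 4)) +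
      (δ - 1) * (lJ + lX + θ / (16 * δ) * j ^ 2) < 0 := by
  have hδ0 : 0 < δ := by linarith
  set β : ℝ := θ / (16 * δ) * j ^ 2 with hβ
  have hβ1 : δ * β = θ * j ^ 2 / 16 := by
    rw [hβ]
    field_simp
  have h1 : (δ - 1) * (lJ + lX + β) ≤ (δ - 1) * (lJ + (lC + lJ + β) + β) :=
    mul_le_mul_of_nonneg_left (by linarith) (by linarith)
  have h2 : δ * lJ ≤ δ * j := mul_le_mul_of_nonneg_left hlJ hδ0.le
  have h3 : 8 * (2 * δ + δ * lC + μ + lam + θ / 4) * j < θ * j * j :=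
    mul_lt_mul_of_pos_right hj (by linarith)
  have h4 : δ * lC ≤ δ * lC * j := le_mul_of_one_le_right (by positivity) hj1
  nlinarith [h1, h2, h3, h4, hβ1]

/-- **A linear relation** between holomorphic functions with algebraic values of small height
along a geometric progression. -/
theorem trans_q (K : Type) [Field K] [NumberField K] {Q : ℂ} (hQ0 : Q ≠ 0) (hQ1 : ‖Q‖ < 1)
    {r₀ μ : ℝ} (hr₀ : 0 < r₀) (hr₀1 : r₀ ≤ 1) :
    ∃ J₀ : ℕ, ∀ (σ : K →+* ℂ) (J : ℕ), J₀ ≤ J → ∀ (T : Type) [Fintype T] [DecidableEq T],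
      Fintype.card T = 2 * J → ∀ (ω : T → ℂ → ℂ), (∀ t, DifferentiableOn ℂ (ω t) (ball 0 r₀)) →
      (∀ t, ∀ z ∈ ball (0 : ℂ) r₀, ‖ω t z‖ ≤ Real.exp (μ * J)) →
      ∀ (ν : ℕ → T → 𝓞 K) (s : ℕ → ℂ), (∀ j, J ≤ j → (∀ t, house (ν j t : K) ≤
        Real.exp (Real.log (1 / ‖Q‖) / (16 * Module.finrank ℚ K) * j ^ 2)) ∧ s j ≠ 0 ∧
        ‖s j‖ ≤ Real.exp (Real.log (1 / ‖Q‖) / (16 * Module.finrank ℚ K) * j ^ 2) ∧
        ∀ t, σ (ν j t : K) = s j * ω t (Q ^ j)) →
      ∃ ξ : T → 𝓞 K, ξ ≠ 0 ∧ ∀ z ∈ ball (0 : ℂ) r₀, ∑ t, σ (ξ t : K) * ω t z = 0 := by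
  classical
  obtain ⟨C₁, hC₁, hsieg⟩ := siegel_one K
  set δ : ℕ := Module.finrank ℚ K with hδ
  have hδpos : 0 < δ := Module.finrank_pos
  have hδ1 : (1 : ℝ) ≤ δ := by exact_mod_cast hδpos
  set θ : ℝ := Real.log (1 / ‖Q‖) with hθ
  have hQpos : 0 < ‖Q‖ := norm_pos_iff.2 hQ0
  have hθpos : 0 < θ := Real.log_pos (by rw [lt_div_iff₀ hQpos]; linarith)
  set lam : ℝ := Real.log (8 / r₀) with hlam
  have hlam0 : 0 ≤ lam := Real.log_nonneg (by rw [le_div_iff₀ hr₀]; linarith)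
  set lC : ℝ := Real.log C₁ with hlC
  have hlC0 : 0 ≤ lC := Real.log_nonneg hC₁
  -- `J₀`
  obtain ⟨N₁, hN₁⟩ := exists_nat_gt (8 * (2 * δ + δ * lC + |μ| + lam + θ / 4) / θ)
  obtain ⟨N₂, hN₂⟩ := exists_pow_lt_of_lt_one (show 0 < r₀ / 4 by linarith) hQ1
  refine ⟨max 1 (max N₁ N₂), ?_⟩
  intro σ J hJ T _ _ hT ω hω hωb ν s hν
  have hJ1 : 1 ≤ J := (le_max_left _ _).trans hJ
  have hJN₁ : N₁ ≤ J := (le_max_left _ _).trans ((le_max_right _ _).trans hJ)
  have hJN₂ : N₂ ≤ J := (le_max_right _ _).trans ((le_max_right _ _).trans hJ)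
  have hQJ : ‖Q‖ ^ J ≤ r₀ / 4 := (pow_le_pow_of_le_one hQpos.le hQ1.le hJN₂).trans hN₂.le
  have hJR : (1 : ℝ) ≤ J := by exact_mod_cast hJ1
  set β : ℝ := θ / (16 * δ) with hβ
  have hβ0 : 0 ≤ β := by positivity
  -- Siegel's lemma
  set A₀ : ℝ := Real.exp (β * (2 * J : ℕ) ^ 2) with hA₀
  obtain ⟨ξ, hξ, hξ0, hξb⟩ := hsieg (Fin J) T J (fun k t => ν (J + k) t) (by omega) (by simp) hT A₀
    (Real.one_le_exp (by positivity)) (by
      intro k t
      refine ((hν (J + k) (by omega)).1 t).trans (Real.exp_le_exp.2 ?_)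
      refine mul_le_mul_of_nonneg_left ?_ hβ0
      have hk := k.2
      have : ((J + k : ℕ) : ℝ) ≤ (2 * J : ℕ) := by
        have : J + (k : ℕ) ≤ 2 * J := by omega
        exact_mod_cast this
      exact pow_le_pow_left₀ (by positivity) this 2)
  set X : ℝ := C₁ * (2 * J * A₀) with hX
  have hX0 : 0 < X := by positivity
  set Φ : ℂ → ℂ := fun z => ∑ t, σ (ξ t : K) * ω t z with hΦ
  have hΦd : DifferentiableOn ℂ Φ (ball 0 r₀) := by
    rw [hΦ]
    refine DifferentiableOn.fun_sum fun t _ => ?_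
    exact (differentiableOn_const _).mul (hω t)
  set lJ : ℝ := Real.log (2 * J) with hlJ
  have h2J : (0 : ℝ) < 2 * J := by positivity
  have hlX : Real.log X = lC + (lJ + β * (2 * J : ℕ) ^ 2) := by
    rw [hX, Real.log_mul (by linarith) (by positivity), Real.log_mul h2J.ne'
      (Real.exp_pos _).ne', Real.log_exp]
  have hXexp : X = Real.exp (Real.log X) := (Real.exp_log hX0).symm
  have h2Jexp : (2 * J : ℝ) = Real.exp lJ := (Real.exp_log h2J).symm
  have hΦb : ∀ z ∈ ball (0 : ℂ) r₀, ‖Φ z‖ ≤ 2 * J * (X * Real.exp (μ * J)) := by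
    intro z hz
    rw [hΦ]
    refine (norm_sum_le _ _).trans ?_
    have h1 : ∀ t ∈ (Finset.univ : Finset T), ‖σ (ξ t : K) * ω t z‖ ≤ X * Real.exp (μ * J) := by
      intro t _
      rw [norm_mul]
      exact mul_le_mul ((norm_embedding_le_house _ σ).trans (hξb t)) (hωb t z hz) (norm_nonneg _)
        hX0.le
    refine (Finset.sum_le_card_nsmul _ _ _ h1).trans ?_
    rw [nsmul_eq_mul, Finset.card_univ, hT]
    push_cast
    exact le_rfl
  set E : ℕ → 𝓞 K := fun j => ∑ t, ν j t * ξ t with hE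
  have hEσ : ∀ j, J ≤ j → σ (E j : K) = s j * Φ (Q ^ j) := by
    intro j hj
    rw [hE, hΦ]
    simp only [RingOfIntegers.coe_eq_algebraMap, map_sum, map_mul]
    rw [Finset.mul_sum]
    refine Finset.sum_congr rfl fun t _ => ?_
    have := (hν j hj).2.2.2 t
    rw [RingOfIntegers.coe_eq_algebraMap] at this
    rw [this]
    ring
  have hEh : ∀ j, J ≤ j → house (E j : K) ≤ 2 * J * (X * Real.exp (β * j ^ 2)) := by
    intro j hj
    rw [hE]
    simp only [map_sum, map_mul]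
    refine (house_sum_le_sum_house _ _).trans ?_
    have h1 : ∀ t ∈ (Finset.univ : Finset T), house (algebraMap (𝓞 K) K (ν j t) *
        algebraMap (𝓞 K) K (ξ t)) ≤ X * Real.exp (β * j ^ 2) := by
      intro t _
      refine (house_mul_le _ _).trans ?_
      rw [mul_comm]
      exact mul_le_mul (hξb t) ((hν j hj).1 t) (house_nonneg _) hX0.le
    refine (Finset.sum_le_card_nsmul _ _ _ h1).trans ?_
    rw [nsmul_eq_mul, Finset.card_univ, hT]
    push_cast
    exact le_rfl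
  have hzero : ∀ j, J ≤ j → Φ (Q ^ j) = 0 := by
    intro j
    induction j using Nat.strong_induction_on with
    | _ j ih =>
    intro hJj
    obtain ⟨hν1, hs0, hsb, hνσ⟩ := hν j hJj
    rcases lt_or_ge j (2 * J) with hj | hj
    · have h1 := hξ0 ⟨j - J, by omega⟩
      have h2 : J + (j - J) = j := by omega
      simp only [h2] at h1
      have h3 : σ (E j : K) = 0 := by
        rw [hE]
        simp only [h1]
        simp
      rw [hEσ j hJj] at h3
      exact (mul_eq_zero.1 h3).resolve_left hs0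
    -- extrapolation
    have hjR : (2 : ℝ) * J ≤ j := by exact_mod_cast hj
    have hj1 : (1 : ℝ) ≤ j := by linarith
    by_contra hne
    have hEne : E j ≠ 0 := by
      intro h
      have h1 := hEσ j hJj
      rw [h] at h1
      simp only [map_zero] at h1
      exact (mul_ne_zero hs0 hne) h1.symm
    have hLi := liouville σ hEne
    have h1 : ‖Φ (Q ^ j)‖ ≤ Real.exp (lam * j - θ * (j * (j - 1)) / 4) *
        (2 * J * (X * Real.exp (μ * J))) := by
      refine (schwarz_geom hQ0 hQ1 hr₀ hΦd hΦb hJj hQJ fun i hi hij => ih i hij hi).trans ?_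
      exact mul_le_mul_of_nonneg_right (prod_geom_le hQpos hr₀ hθ hlam hlam0 hθpos.le hj)
        (by positivity)
    have hμ : Real.exp (μ * J) ≤ Real.exp (|μ| * j) := by
      refine Real.exp_le_exp.2 ?_
      calc μ * J ≤ |μ| * J := mul_le_mul_of_nonneg_right (le_abs_self μ) (by linarith)
        _ ≤ |μ| * j := mul_le_mul_of_nonneg_left (by linarith) (abs_nonneg μ)
    have h2 : ‖σ (E j : K)‖ ≤ Real.exp (β * j ^ 2 + (lJ + Real.log X + |μ| * j) +
        (lam * j - θ * (j * (j - 1)) / 4)) := by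
      rw [hEσ j hJj, norm_mul]
      calc ‖s j‖ * ‖Φ (Q ^ j)‖ ≤ Real.exp (β * j ^ 2) *
            (Real.exp (lam * j - θ * (j * (j - 1)) / 4) * (2 * J * (X * Real.exp (|μ| * j)))) :=
            mul_le_mul hsb (h1.trans (mul_le_mul_of_nonneg_left (mul_le_mul_of_nonneg_left
              (mul_le_mul_of_nonneg_left hμ hX0.le) h2J.le) (Real.exp_pos _).le)) (norm_nonneg _)
              (Real.exp_pos _).le
        _ = _ := by
            conv_lhs => rw [h2Jexp, hXexp]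
            simp only [← Real.exp_add]
            congr 1
            ring
    have h3 : house (E j : K) ≤ Real.exp (lJ + Real.log X + β * j ^ 2) := by
      refine (hEh j hJj).trans (le_of_eq ?_)
      conv_lhs => rw [h2Jexp, hXexp]
      rw [Real.exp_add, Real.exp_add]
      ring
    have hineq := geom_ineq (δ := δ) (θ := θ) (j := j) (lJ := lJ) (lX := Real.log X) (lC := lC)
      (μ := |μ|) (lam := lam) hδ1 hj1
      (by
        have := Real.log_le_sub_one_of_pos h2J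
        rw [hlJ]
        linarith)
      hlC0
      (by
        rw [hlX]
        have h4 : ((2 * J : ℕ) : ℝ) ^ 2 ≤ (j : ℝ) ^ 2 :=
          pow_le_pow_left₀ (by positivity) (by exact_mod_cast hj) 2
        have h5 := mul_le_mul_of_nonneg_left h4 hβ0
        linarith)
      (by
        have h6 : (N₁ : ℝ) ≤ j := by
          have : N₁ ≤ j := by omega
          exact_mod_cast this
        rw [div_lt_iff₀ hθpos] at hN₁
        have h7 := mul_le_mul_of_nonneg_right h6 hθpos.le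
        linarith)
    obtain ⟨δ', hδ'⟩ : ∃ δ', δ = δ' + 1 := ⟨δ - 1, by omega⟩
    rw [← hδ, hδ', Nat.add_sub_cancel] at hLi
    have h4 := mul_le_mul h2 (pow_le_pow_left₀ (house_nonneg _) h3 δ')
      (pow_nonneg (house_nonneg _) _) (Real.exp_pos _).le
    rw [← Real.exp_nat_mul, ← Real.exp_add] at h4
    have h5 : (δ' : ℝ) = δ - 1 := by
      rw [hδ']
      push_cast
      ring
    rw [h5] at h4
    have h6 := Real.exp_lt_exp.2 hineq
    rw [Real.exp_zero] at h6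
    linarith
  refine ⟨ξ, hξ, fun z hz => ?_⟩
  have han : AnalyticOnNhd ℂ Φ (ball (0 : ℂ) r₀) := hΦd.analyticOnNhd isOpen_ball
  have hfreq : ∃ᶠ w in 𝓝[≠] (0 : ℂ), Φ w = 0 := by
    have htend : Tendsto (fun m : ℕ => Q ^ m) atTop (𝓝[≠] (0 : ℂ)) := by
      rw [tendsto_nhdsWithin_iff]
      refine ⟨tendsto_pow_atTop_nhds_zero_of_norm_lt_one hQ1, Eventually.of_forall fun m => ?_⟩
      exact pow_ne_zero _ hQ0
    refine htend.frequently (Eventually.frequently ?_)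
    filter_upwards [eventually_ge_atTop J] with m hm
    exact hzero m hm
  exact han.eqOn_zero_of_preconnected_of_frequently_eq_zero
    (convex_ball (0 : ℂ) r₀).isPreconnected (mem_ball_self hr₀) hfreq hz

end Pool.Agent.KS6_12
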